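import Pool.Agent.Lib.H58F.Defs

/-!
# A: elementary facts on `o` and `w`
-/

set_option autoImplicit false

namespace H58F

/-- `orderOf_dvd_iff_pow_eq_one`. -/
theorem o_dvd_iff (d k : ℕ) : o d ∣ k ↔ (2 : ZMod d) ^ k = 1 := orderOf_dvd_iff_pow_eq_one

/-- If `d ∣ e` then the order modulo `d` divides the order modulo `e` (`ZMod.castHom`; for `e = 0` all
is trivial as `o 0 = 0`). -/
theorem o_dvd_of_dvd {d e : ℕ} (h : d ∣ e) : o d ∣ o e := by
  rw [o_dvd_iff]
  have h1 : (2 : ZMod e) ^ (o e) = 1 := (o_dvd_iff e (o e)).1 dvd_rfl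
  have h2 := congrArg (ZMod.castHom h (ZMod d)) h1
  rw [map_pow, map_one, map_ofNat] at h2
  exact h2

/-- `2` is not a unit modulo an even number: `o 2 = 0`, and `o d = 0` for even `d`. -/
theorem o_eq_zero_of_even {d : ℕ} (h : 2 ∣ d) : o d = 0 := by
  by_contra h0
  have h1 : (2 : ZMod d) ^ (o d) = 1 := (o_dvd_iff d (o d)).1 dvd_rfl
  have h2 := congrArg (ZMod.castHom h (ZMod 2)) h1
  rw [map_pow, map_one, map_ofNat] at h2
  have h3 : (2 : ZMod 2) = 0 := by decide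
  rw [h3, zero_pow h0] at h2
  exact absurd h2 (by decide)

private theorem o_eq_units {d : ℕ} (h : Nat.Coprime 2 d) :
    o d = orderOf (ZMod.unitOfCoprime 2 h) := by
  rw [← orderOf_units, ZMod.coe_unitOfCoprime]
  rfl

private theorem coprime_two {d : ℕ} (h : ¬ 2 ∣ d) : Nat.Coprime 2 d :=
  (Nat.Prime.coprime_iff_not_dvd Nat.prime_two).2 h

/-- The order modulo an odd number is positive and at most `d`. -/
theorem o_pos {d : ℕ} (h : ¬ 2 ∣ d) : 0 < o d := by
  have hd : d ≠ 0 := by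
    rintro rfl
    exact h (dvd_zero 2)
  have : NeZero d := ⟨hd⟩
  rw [o_eq_units (coprime_two h)]
  exact orderOf_pos _

theorem o_le {d : ℕ} (h : d ≠ 0) : o d ≤ d := by
  have : NeZero d := ⟨h⟩
  by_cases h2 : 2 ∣ d
  · rw [o_eq_zero_of_even h2]
    exact Nat.zero_le d
  · rw [o_eq_units (coprime_two h2)]
    calc orderOf (ZMod.unitOfCoprime 2 (coprime_two h2)) ≤ Fintype.card (ZMod d)ˣ :=
          orderOf_le_card_univ
      _ = Nat.totient d := ZMod.card_units_eq_totient d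
      _ ≤ d := Nat.totient_le d

/-- For a prime `p`, `o p ∣ p - 1` if `p` is odd; `o 2 = 0`. -/
theorem o_dvd_sub_one {p : ℕ} (hp : p.Prime) (h : 0 < o p) : o p ∣ p - 1 := by
  have : Fact p.Prime := ⟨hp⟩
  rw [o_dvd_iff]
  apply ZMod.pow_card_sub_one_eq_one
  intro h0
  have h1 : ((2 : ℕ) : ZMod p) = 0 := by exact_mod_cast h0
  have h2 : p ∣ 2 := (ZMod.natCast_eq_zero_iff 2 p).1 h1
  have h3 : p = 2 := (Nat.prime_dvd_prime_iff_eq hp Nat.prime_two).1 h2
  rw [h3, o_eq_zero_of_even dvd_rfl] at h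
  exact lt_irrefl 0 h

theorem w_one_le {p : ℕ} (hp : p.Prime) : 1 ≤ w p := by
  have h1 : (1 : ℝ) ≤ p := by exact_mod_cast hp.one_lt.le
  exact le_trans (Real.one_le_sqrt.2 h1) (le_max_right _ _)

theorem w_le {p : ℕ} (hp : p.Prime) : w p ≤ p := by
  have h1 : (1 : ℝ) ≤ p := by exact_mod_cast hp.one_lt.le
  refine max_le ?_ ?_
  · have h2 : o p ≤ p := o_le hp.ne_zero
    have h3 : ((o p : ℕ) : ℝ) ≤ p := by exact_mod_cast h2
    exact h3
  · rw [Real.sqrt_le_left (by linarith)]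
    nlinarith

end H58F
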