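import Pool.Agent.Lib.H58F.A

/-!
# A2: elementary facts on `W`; a divisor of prescribed size
-/

set_option autoImplicit false

namespace H58F

theorem W_one : W 1 = 1 := by
  simp [W]

theorem W_prime {p : ℕ} (hp : p.Prime) : W p = w p := by
  simp [W, Nat.primeFactorsList_prime hp]

/-- `Nat.perm_primeFactorsList_mul`. -/
theorem W_mul {a b : ℕ} (ha : a ≠ 0) (hb : b ≠ 0) : W (a * b) = W a * W b := by
  unfold W
  rw [((Nat.perm_primeFactorsList_mul ha hb).map w).prod_eq, List.map_append, List.prod_append]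

private theorem a2_list (L : List ℕ) : (∀ p ∈ L, p.Prime) →
    1 ≤ (L.map w).prod ∧ (L.map w).prod ≤ (L.prod : ℝ) := by
  induction L with
  | nil => intro _; simp
  | cons p L ih =>
    intro h
    obtain ⟨h1, h2⟩ := ih fun q hq => h q (List.mem_cons_of_mem p hq)
    have hp := h p List.mem_cons_self
    have h3 := w_one_le hp
    have h4 := w_le hp
    rw [List.map_cons, List.prod_cons, List.prod_cons, Nat.cast_mul]
    refine ⟨?_, ?_⟩
    · nlinarith
    · exact mul_le_mul h4 h2 (by linarith) (by positivity)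

theorem W_one_le (n : ℕ) : 1 ≤ W n :=
  (a2_list n.primeFactorsList fun _ hp => Nat.prime_of_mem_primeFactorsList hp).1

theorem W_le {n : ℕ} (hn : n ≠ 0) : W n ≤ n := by
  have h := (a2_list n.primeFactorsList fun _ hp => Nat.prime_of_mem_primeFactorsList hp).2
  rwa [Nat.prod_primeFactorsList hn] at h

/-- Take the largest divisor `d ≤ y` of `n`; `n / d` has a prime factor `p`, and `d p > y`. -/
theorem exists_dvd {n : ℕ} (hn : n ≠ 0) {y z : ℝ} (hy : 1 ≤ y) (hyn : y < n)
    (hz : ∀ p : ℕ, p.Prime → p ∣ n → (p : ℝ) ≤ z) :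
    ∃ d : ℕ, d ∣ n ∧ (d : ℝ) ≤ y ∧ y < d * z := by
  classical
  set S : Finset ℕ := n.divisors.filter (fun d : ℕ => (d : ℝ) ≤ y) with hS
  have hne : S.Nonempty := ⟨1, by
    rw [hS, Finset.mem_filter, Nat.mem_divisors]
    exact ⟨⟨one_dvd n, hn⟩, by simpa using hy⟩⟩
  obtain ⟨d, hd, hmax⟩ := S.exists_max_image id hne
  rw [hS, Finset.mem_filter, Nat.mem_divisors] at hd
  obtain ⟨⟨hdn, -⟩, hdy⟩ := hd
  refine ⟨d, hdn, hdy, ?_⟩
  obtain ⟨k, hk⟩ := hdn
  have hk1 : k ≠ 1 := by
    rintro rfl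
    rw [mul_one] at hk
    rw [hk] at hyn
    linarith
  obtain ⟨p, hp, hpk⟩ := Nat.exists_prime_and_dvd hk1
  have hdp : d * p ∣ n := by
    rw [hk]
    exact mul_dvd_mul_left d hpk
  have hd0 : 0 < d := by
    rcases Nat.eq_zero_or_pos d with h | h
    · rw [h, zero_mul] at hk
      exact absurd hk hn
    · exact h
  have hlt : y < ((d * p : ℕ) : ℝ) := by
    by_contra hcon
    push Not at hcon
    have h1 := hmax (d * p) (by
      rw [hS, Finset.mem_filter, Nat.mem_divisors]
      exact ⟨⟨hdp, hn⟩, hcon⟩)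
    have h2 : d * p ≤ d := h1
    have h3 := hp.two_le
    nlinarith
  have h4 := hz p hp ((dvd_mul_left p d).trans hdp)
  have h5 : ((d * p : ℕ) : ℝ) ≤ d * z := by
    rw [Nat.cast_mul]
    exact mul_le_mul_of_nonneg_left h4 (Nat.cast_nonneg d)
  linarith

end H58F
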