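import Pool.Agent.Lib.H58F.A2

/-!
# B: the number of pseudoprimes divisible by a given number
-/

set_option autoImplicit false

namespace H58F

/-- Numbers below `x` that are congruent to each other modulo `q` (`n ↦ n / q` is injective). -/
theorem card_congr (T : Finset ℕ) {q : ℕ} (hq : 0 < q) {x : ℝ} (hx : 0 ≤ x)
    (hT : ∀ n ∈ T, (n : ℝ) < x) (h : ∀ a ∈ T, ∀ b ∈ T, a ≡ b [MOD q]) :
    (T.card : ℝ) ≤ x / q + 1 := by
  classical
  have hq' : (0 : ℝ) < q := by exact_mod_cast hq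
  have h1 : T.card ≤ (Finset.range (⌊x / q⌋₊ + 1)).card := by
    apply Finset.card_le_card_of_injOn (fun n => n / q)
    · intro n hn
      have hn' : n ∈ T := hn
      have h2 : ((n / q : ℕ) : ℝ) ≤ x / q := by
        calc ((n / q : ℕ) : ℝ) ≤ (n : ℝ) / q := Nat.cast_div_le
          _ ≤ x / q := by
            apply div_le_div_of_nonneg_right (hT n hn').le hq'.le
      have h3 : n / q ≤ ⌊x / q⌋₊ := Nat.le_floor h2
      have h4 : n / q ∈ Finset.range (⌊x / q⌋₊ + 1) := Finset.mem_range.2 (by omega)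
      exact h4
    · intro a ha b hb hab
      have hab' : a / q = b / q := hab
      have h2 : a % q = b % q := h a ha b hb
      have h3 := Nat.div_add_mod a q
      have h4 := Nat.div_add_mod b q
      rw [hab', h2] at h3
      rw [← h3, h4]
  rw [Finset.card_range] at h1
  have h2 : (T.card : ℝ) ≤ ((⌊x / q⌋₊ + 1 : ℕ) : ℝ) := by exact_mod_cast h1
  have h3 : ((⌊x / q⌋₊ : ℕ) : ℝ) ≤ x / q := Nat.floor_le (by positivity)
  rw [Nat.cast_add, Nat.cast_one] at h2
  linarith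

private theorem psp_o {n d : ℕ} (h : n.FermatPsp 2) (hd : d ∣ n) : o d ∣ n - 1 := by
  obtain ⟨h1, -, h3⟩ := h
  have h1' : n ∣ 2 ^ (n - 1) - 1 := h1
  have h4 : o n ∣ n - 1 := by
    rw [o_dvd_iff]
    have h5 : ((2 ^ (n - 1) - 1 : ℕ) : ZMod n) = 0 := (ZMod.natCast_eq_zero_iff _ n).2 h1'
    rw [Nat.cast_sub Nat.one_le_two_pow, Nat.cast_pow, Nat.cast_one, Nat.cast_ofNat,
      sub_eq_zero] at h5
    exact h5
  exact (o_dvd_of_dvd hd).trans h4

/-- If `d ∣ n` and `n` is a pseudoprime, then `n ≡ 0 (mod d)`, `n ≡ 1 (mod o d)`, and `d`, `o d` are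
coprime, so two such `n` are congruent modulo `d * o d`.  (If `o d = 0` there is no such `n`.) -/
theorem card_psp_dvd (T : Finset ℕ) {d : ℕ} (hd : 0 < d) {x : ℝ} (hx : 0 ≤ x)
    (hT : ∀ n ∈ T, (n : ℝ) < x ∧ n.FermatPsp 2 ∧ d ∣ n) :
    (T.card : ℝ) ≤ x / (d * o d) + 1 := by
  rcases T.eq_empty_or_nonempty with h0 | ⟨n₀, hn₀⟩
  · rw [h0, Finset.card_empty, Nat.cast_zero]
    positivity
  · obtain ⟨-, hpsp, hdn⟩ := hT n₀ hn₀
    have h1 := psp_o hpsp hdn
    have hn1 : 1 < n₀ := hpsp.2.2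
    have ho : 0 < o d := by
      apply Nat.pos_of_dvd_of_pos h1
      omega
    have hcop : Nat.Coprime d (o d) := by
      have h2 : Nat.gcd d (o d) ∣ n₀ := (Nat.gcd_dvd_left _ _).trans hdn
      have h3 : Nat.gcd d (o d) ∣ n₀ - 1 := (Nat.gcd_dvd_right _ _).trans h1
      have h4 : Nat.gcd d (o d) ∣ n₀ - (n₀ - 1) := Nat.dvd_sub h2 h3
      have h5 : n₀ - (n₀ - 1) = 1 := by omega
      rw [h5] at h4
      exact Nat.dvd_one.1 h4
    have h2 := card_congr T (Nat.mul_pos hd ho) hx (fun n hn => (hT n hn).1) (by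
      intro a ha b hb
      rw [← Nat.modEq_and_modEq_iff_modEq_mul hcop]
      obtain ⟨-, ha1, ha2⟩ := hT a ha
      obtain ⟨-, hb1, hb2⟩ := hT b hb
      refine ⟨?_, ?_⟩
      · exact ((Nat.modEq_zero_iff_dvd.2 ha2)).trans (Nat.modEq_zero_iff_dvd.2 hb2).symm
      · have ha3 : 1 ≤ a := ha1.2.2.le
        have hb3 : 1 ≤ b := hb1.2.2.le
        have e1 : 1 ≡ a [MOD o d] := (Nat.modEq_iff_dvd' ha3).2 (psp_o ha1 ha2)
        have e2 : 1 ≡ b [MOD o d] := (Nat.modEq_iff_dvd' hb3).2 (psp_o hb1 hb2)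
        exact e1.symm.trans e2)
    rw [Nat.cast_mul] at h2
    exact h2

/-- If `p ∣ n`, `n` a pseudoprime, then `n = p * m` with `m = 1 + k * o p`, `k ≥ 1` (for `o p` divides
`n - 1` and `p - 1`, and `m ≠ 1` as `n` is not prime); `k ≤ x / (p * o p)`. -/
theorem card_psp_prime (T : Finset ℕ) {p : ℕ} (hp : p.Prime) {x : ℝ} (hx : 0 ≤ x)
    (hT : ∀ n ∈ T, (n : ℝ) < x ∧ n.FermatPsp 2 ∧ p ∣ n) :
    (T.card : ℝ) ≤ x / (p * o p) := by
  classical
  rcases T.eq_empty_or_nonempty with h0 | ⟨n₀, hn₀⟩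
  · rw [h0, Finset.card_empty, Nat.cast_zero]
    positivity
  · have ho : 0 < o p := by
      obtain ⟨-, hpsp, hdn⟩ := hT n₀ hn₀
      have hn1 : 1 < n₀ := hpsp.2.2
      apply Nat.pos_of_dvd_of_pos (psp_o hpsp hdn)
      omega
    have hp0 : 0 < p := hp.pos
    have hpo : (0 : ℝ) < (p : ℝ) * o p := by
      have h1 : (0 : ℝ) < p := by exact_mod_cast hp0
      have h2 : (0 : ℝ) < o p := by exact_mod_cast ho
      positivity
    have key : ∀ n ∈ T, ∃ k, 1 ≤ k ∧ (n / p - 1) / o p = k ∧ n = p * (k * o p + 1) := by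
      intro n hn
      obtain ⟨-, hpsp, hdn⟩ := hT n hn
      have h1 := psp_o hpsp hdn
      obtain ⟨-, hnp, hn1⟩ := hpsp
      obtain ⟨m, rfl⟩ := hdn
      have hm0 : m ≠ 0 := by
        rintro rfl
        omega
      have hm1 : m ≠ 1 := by
        rintro rfl
        rw [mul_one] at hnp
        exact hnp hp
      have h2 : o p ∣ (p - 1) * m := Dvd.dvd.mul_right (o_dvd_sub_one hp ho) m
      have h3 : p * m - 1 = (p - 1) * m + (m - 1) := by
        obtain ⟨q, rfl⟩ : ∃ q, p = q + 1 := ⟨p - 1, by omega⟩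
        obtain ⟨l, rfl⟩ : ∃ l, m = l + 1 := ⟨m - 1, by omega⟩
        simp only [Nat.add_sub_cancel]
        have : (q + 1) * (l + 1) = q * (l + 1) + l + 1 := by ring
        rw [this, Nat.add_sub_cancel]
      rw [h3] at h1
      have h4 : o p ∣ m - 1 := (Nat.dvd_add_right h2).1 h1
      obtain ⟨k, hk⟩ := h4
      have hk1 : 1 ≤ k := by
        rcases Nat.eq_zero_or_pos k with h | h
        · rw [h, mul_zero] at hk
          omega
        · exact h
      refine ⟨k, hk1, ?_, ?_⟩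
      · rw [Nat.mul_div_cancel_left m hp0, hk, Nat.mul_div_cancel_left k ho]
      · have h5 : m = k * o p + 1 := by
          rw [mul_comm k, ← hk]
          omega
        rw [← h5]
    have h1 : T.card ≤ (Finset.Icc 1 ⌊x / (p * o p)⌋₊).card := by
      apply Finset.card_le_card_of_injOn (fun n => (n / p - 1) / o p)
      · intro n hn
        have hn' : n ∈ T := hn
        obtain ⟨k, hk1, hk2, hk3⟩ := key n hn'
        have h2 : (k : ℝ) ≤ x / (p * o p) := by
          rw [le_div_iff₀ hpo]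
          have h3 := (hT n hn').1
          have h4 : (n : ℝ) = p * (k * o p + 1) := by exact_mod_cast hk3
          have h5 : (0 : ℝ) < p := by exact_mod_cast hp0
          rw [h4] at h3
          nlinarith
        have h3 : k ∈ Finset.Icc 1 ⌊x / (p * o p)⌋₊ :=
          Finset.mem_Icc.2 ⟨hk1, Nat.le_floor h2⟩
        have h4 : (n / p - 1) / o p ∈ Finset.Icc 1 ⌊x / (p * o p)⌋₊ := by
          rw [hk2]
          exact h3
        exact h4
      · intro a ha b hb hab
        have hab' : (a / p - 1) / o p = (b / p - 1) / o p := hab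
        obtain ⟨k, -, hk2, hk3⟩ := key a ha
        obtain ⟨l, -, hl2, hl3⟩ := key b hb
        have : k = l := by rw [← hk2, ← hl2, hab']
        rw [hk3, hl3, this]
    rw [Nat.card_Icc, Nat.add_sub_cancel] at h1
    calc (T.card : ℝ) ≤ ((⌊x / (p * o p)⌋₊ : ℕ) : ℝ) := by exact_mod_cast h1
      _ ≤ x / (p * o p) := Nat.floor_le (div_nonneg hx hpo.le)

end H58F
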