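import Pool.Agent.Lib.H58F.A

/-!
# C: the primes modulo which 2 has a given order
-/

set_option autoImplicit false

namespace H58F

/-- The product of the members of `P t N` divides `2^t - 1`, so `2 ^ card ≤ 2^t - 1`. -/
theorem card_P {t : ℕ} (ht : 1 ≤ t) (N : ℕ) : (P t N).card ≤ t := by
  have hdvd : ∏ p ∈ P t N, p ∣ 2 ^ t - 1 := by
    apply Finset.prod_primes_dvd
    · intro p hp
      exact (Finset.mem_filter.1 hp).2.1.prime
    · intro p hp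
      have h1 := (Finset.mem_filter.1 hp).2.2
      have h2 : (2 : ZMod p) ^ t = 1 := (o_dvd_iff p t).1 (by rw [h1])
      rw [← ZMod.natCast_eq_zero_iff]
      have h3 : 1 ≤ 2 ^ t := Nat.one_le_two_pow
      rw [Nat.cast_sub h3]
      push_cast
      rw [h2, sub_self]
  have hpos : 0 < 2 ^ t - 1 := by
    have h1 : 2 ^ 1 ≤ 2 ^ t := Nat.pow_le_pow_right (by norm_num) ht
    omega
  have h2 := Nat.le_of_dvd hpos hdvd
  have h3 : 2 ^ (P t N).card ≤ ∏ p ∈ P t N, p := by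
    rw [← Finset.prod_const]
    exact Finset.prod_le_prod (fun _ _ => Nat.zero_le _)
      (fun p hp => (Finset.mem_filter.1 hp).2.1.two_le)
  have h4 : 2 ^ (P t N).card < 2 ^ t := by omega
  exact ((Nat.pow_lt_pow_iff_right (by norm_num)).1 h4).le

theorem P_spec {t N p : ℕ} (ht : 1 ≤ t) (hp : p ∈ P t N) :
    p.Prime ∧ p < N ∧ t ∣ p - 1 ∧ t < p := by
  obtain ⟨h1, h2, h3⟩ := Finset.mem_filter.1 hp
  have h4 : t ∣ p - 1 := by
    have h5 := o_dvd_sub_one h2 (by omega)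
    rwa [h3] at h5
  have h6 := h2.two_le
  have h7 := Nat.le_of_dvd (by omega) h4
  exact ⟨h2, Finset.mem_range.1 h1, h4, by omega⟩

private theorem c_form {t N p : ℕ} (ht : 1 ≤ t) (hp : p ∈ P t N) :
    p = ((p - 1) / t - 1 + 1) * t + 1 ∧ (p - 1) / t - 1 < N := by
  obtain ⟨h1, h2, ⟨k, hk⟩, h4⟩ := P_spec ht hp
  have h5 := h1.two_le
  have h6 : (p - 1) / t = k := by
    rw [hk]
    exact Nat.mul_div_cancel_left k ht
  have h7 : k ≠ 0 := by
    rintro rfl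
    rw [mul_zero] at hk
    omega
  have h8 : k - 1 + 1 = k := by omega
  rw [h6, h8]
  have h9 : k * t = p - 1 := by rw [hk, mul_comm]
  refine ⟨by omega, ?_⟩
  have h10 : k ≤ k * t := Nat.le_mul_of_pos_right k ht
  omega

/-- The members are `1 + j t`, `j ≥ 1`: the sum is at most `(1/t) ∑_(j < N) 1/j`
(`harmonic_le_one_add_log` or similar). -/
theorem sum_P_inv {t : ℕ} (ht : 1 ≤ t) {N : ℕ} (hN : 1 ≤ N) :
    ∑ p ∈ P t N, (1 : ℝ) / p ≤ (1 + Real.log N) / t := by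
  have _ := hN
  have htR : (0 : ℝ) < t := by exact_mod_cast ht
  have h1 : ∀ p ∈ P t N, (1 : ℝ) / p ≤ (((p - 1) / t - 1 + 1 : ℕ) : ℝ)⁻¹ * (t : ℝ)⁻¹ := by
    intro p hp
    have h2 := (c_form ht hp).1
    rw [← mul_inv, one_div]
    have h3 : (0 : ℝ) < (((p - 1) / t - 1 + 1 : ℕ) : ℝ) := by
      exact_mod_cast Nat.succ_pos _
    apply inv_anti₀ (mul_pos h3 htR)
    have h4 : ((p - 1) / t - 1 + 1) * t ≤ p := by omega
    exact_mod_cast h4
  have hinj : Set.InjOn (fun p => (p - 1) / t - 1) (P t N : Set ℕ) := by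
    intro p hp q hq hpq
    have h2 := (c_form ht (Finset.mem_coe.1 hp)).1
    have h3 := (c_form ht (Finset.mem_coe.1 hq)).1
    have h4 : (p - 1) / t - 1 = (q - 1) / t - 1 := hpq
    rw [h4] at h2
    rw [h2]
    exact h3.symm
  have h5 : ∑ p ∈ P t N, (((p - 1) / t - 1 + 1 : ℕ) : ℝ)⁻¹ ≤
      ∑ j ∈ Finset.range N, ((j + 1 : ℕ) : ℝ)⁻¹ := by
    have h6 : ∑ p ∈ P t N, (((p - 1) / t - 1 + 1 : ℕ) : ℝ)⁻¹ =
        ∑ j ∈ (P t N).image (fun p => (p - 1) / t - 1), ((j + 1 : ℕ) : ℝ)⁻¹ :=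
      (Finset.sum_image (f := fun j : ℕ => ((j + 1 : ℕ) : ℝ)⁻¹) hinj).symm
    rw [h6]
    apply Finset.sum_le_sum_of_subset_of_nonneg
    · intro j hj
      obtain ⟨p, hp, rfl⟩ := Finset.mem_image.1 hj
      exact Finset.mem_range.2 (c_form ht hp).2
    · intro j _ _
      positivity
  have h7 : ∑ j ∈ Finset.range N, ((j + 1 : ℕ) : ℝ)⁻¹ ≤ 1 + Real.log N := by
    have h8 := harmonic_le_one_add_log N
    unfold harmonic at h8
    push_cast at h8 ⊢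
    exact h8
  calc ∑ p ∈ P t N, (1 : ℝ) / p
      ≤ ∑ p ∈ P t N, (((p - 1) / t - 1 + 1 : ℕ) : ℝ)⁻¹ * (t : ℝ)⁻¹ := Finset.sum_le_sum h1
    _ = (∑ p ∈ P t N, (((p - 1) / t - 1 + 1 : ℕ) : ℝ)⁻¹) * (t : ℝ)⁻¹ := by
        rw [Finset.sum_mul]
    _ ≤ (1 + Real.log N) * (t : ℝ)⁻¹ :=
        mul_le_mul_of_nonneg_right (h5.trans h7) (inv_nonneg.2 htR.le)
    _ = (1 + Real.log N) / t := by rw [div_eq_mul_inv]

end H58F
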