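import Pool.Agent.Lib.H58F.C

/-!
# C2: the sum of the weights over the primes of a given order
-/

set_option autoImplicit false

namespace H58F

private theorem c2_harm (t : ℕ) :
    ∑ j ∈ Finset.Icc 1 t, ((j : ℝ))⁻¹ ≤ 1 + Real.log t := by
  have h := harmonic_le_one_add_log t
  rw [harmonic_eq_sum_Icc] at h
  push_cast at h
  exact h

private theorem c2_small {t : ℕ} (ht : 1 ≤ t) (N : ℕ) {θ : ℝ} (h0 : 0 ≤ θ) :
    ∑ p ∈ (P t N).filter (fun p => p ≤ t ^ 2), w p ^ θ / (p : ℝ) ≤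
      (t : ℝ) ^ (θ - 1) * (1 + Real.log t) := by
  have ht0 : (0 : ℝ) < t := by exact_mod_cast ht
  have hspec : ∀ p ∈ (P t N).filter (fun p => p ≤ t ^ 2),
      t * ((p - 1) / t) = p - 1 ∧ 1 ≤ (p - 1) / t ∧ (p - 1) / t ≤ t ∧ w p = t ∧ 1 ≤ p := by
    intro p hp
    rw [Finset.mem_filter] at hp
    obtain ⟨hp1, hp2⟩ := hp
    obtain ⟨hpp, -, hd, hlt⟩ := P_spec ht hp1
    have e1 : t * ((p - 1) / t) = p - 1 := Nat.mul_div_cancel' hd
    have e2 : 1 ≤ (p - 1) / t := by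
      rw [Nat.le_div_iff_mul_le (by omega)]
      omega
    have e3 : (p - 1) / t ≤ t := by
      apply Nat.div_le_of_le_mul
      have : t ^ 2 = t * t := sq t
      omega
    have ho : o p = t := by
      unfold P at hp1
      exact (Finset.mem_filter.1 hp1).2.2
    have e4 : w p = t := by
      unfold w
      unfold o at ho
      rw [ho]
      apply max_eq_left
      rw [Real.sqrt_le_left ht0.le]
      exact_mod_cast hp2
    exact ⟨e1, e2, e3, e4, by omega⟩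
  have h1 : ∑ p ∈ (P t N).filter (fun p => p ≤ t ^ 2), w p ^ θ / (p : ℝ) ≤
      ∑ p ∈ (P t N).filter (fun p => p ≤ t ^ 2),
        (t : ℝ) ^ (θ - 1) * ((((p - 1) / t : ℕ) : ℝ))⁻¹ := by
    apply Finset.sum_le_sum
    intro p hp
    obtain ⟨e1, e2, e3, e4, e5⟩ := hspec p hp
    rw [e4]
    have hj : (0 : ℝ) < (((p - 1) / t : ℕ) : ℝ) := by exact_mod_cast e2
    have e6 : (t : ℝ) * (((p - 1) / t : ℕ) : ℝ) ≤ p := by
      have : t * ((p - 1) / t) ≤ p := by omega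
      exact_mod_cast this
    have e7 : (t : ℝ) ^ (θ - 1) = (t : ℝ) ^ θ / t := by
      rw [Real.rpow_sub ht0, Real.rpow_one]
    have e8 : (t : ℝ) ^ θ / t * (((p - 1) / t : ℕ) : ℝ)⁻¹ = (t : ℝ) ^ θ / (t * (((p - 1) / t : ℕ) : ℝ)) := by
      rw [← div_eq_mul_inv, div_div]
    rw [e7, e8]
    exact div_le_div_of_nonneg_left (Real.rpow_nonneg ht0.le _) (mul_pos ht0 hj) e6
  have hinj : Set.InjOn (fun p => (p - 1) / t) ((P t N).filter (fun p => p ≤ t ^ 2) : Finset ℕ) := by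
    intro p hp q hq hpq
    obtain ⟨e1, -, -, -, e5⟩ := hspec p hp
    obtain ⟨f1, -, -, -, f5⟩ := hspec q hq
    simp only at hpq
    rw [hpq, f1] at e1
    omega
  have h2 : ∑ p ∈ (P t N).filter (fun p => p ≤ t ^ 2), ((((p - 1) / t : ℕ) : ℝ))⁻¹ ≤
      ∑ j ∈ Finset.Icc 1 t, ((j : ℝ))⁻¹ := by
    have h3 : ∑ p ∈ (P t N).filter (fun p => p ≤ t ^ 2), ((((p - 1) / t : ℕ) : ℝ))⁻¹ =
        ∑ j ∈ ((P t N).filter (fun p => p ≤ t ^ 2)).image (fun p => (p - 1) / t), ((j : ℝ))⁻¹ :=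
      (Finset.sum_image (f := fun j : ℕ => ((j : ℝ))⁻¹) hinj).symm
    rw [h3]
    apply Finset.sum_le_sum_of_subset_of_nonneg
    · intro j hj
      obtain ⟨p, hp, rfl⟩ := Finset.mem_image.1 hj
      obtain ⟨-, e2, e3, -, -⟩ := hspec p hp
      exact Finset.mem_Icc.2 ⟨e2, e3⟩
    · intro j _ _
      positivity
  refine h1.trans ?_
  rw [← Finset.mul_sum]
  exact mul_le_mul_of_nonneg_left (h2.trans (c2_harm t)) (Real.rpow_nonneg ht0.le _)

private theorem c2_large {t : ℕ} (ht : 1 ≤ t) (N : ℕ) {θ : ℝ} (h0 : 0 ≤ θ) (h1 : θ ≤ 1) :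
    ∑ p ∈ (P t N).filter (fun p => ¬ p ≤ t ^ 2), w p ^ θ / (p : ℝ) ≤ (t : ℝ) ^ (θ - 1) := by
  have ht0 : (0 : ℝ) < t := by exact_mod_cast ht
  have hle : ∀ p ∈ (P t N).filter (fun p => ¬ p ≤ t ^ 2),
      w p ^ θ / (p : ℝ) ≤ (t : ℝ) ^ (θ - 2) := by
    intro p hp
    rw [Finset.mem_filter] at hp
    obtain ⟨hp1, hp2⟩ := hp
    have ho : o p = t := by
      unfold P at hp1
      exact (Finset.mem_filter.1 hp1).2.2
    have hp3 : (t : ℝ) ^ 2 ≤ p := by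
      have : t ^ 2 ≤ p := by omega
      exact_mod_cast this
    have hp0 : (0 : ℝ) < p := lt_of_lt_of_le (by positivity) hp3
    have e4 : w p = Real.sqrt p := by
      unfold w
      unfold o at ho
      rw [ho]
      apply max_eq_right
      exact Real.le_sqrt_of_sq_le hp3
    rw [e4, Real.sqrt_eq_rpow, ← Real.rpow_mul hp0.le]
    have e5 : (p : ℝ) ^ (1 / 2 * θ) / (p : ℝ) = (p : ℝ) ^ (1 / 2 * θ - 1) := by
      rw [Real.rpow_sub hp0, Real.rpow_one]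
    rw [e5]
    have e6 : (t : ℝ) ^ (θ - 2) = ((t : ℝ) ^ 2) ^ (1 / 2 * θ - 1) := by
      rw [← Real.rpow_natCast, ← Real.rpow_mul ht0.le]
      congr 1
      push_cast
      ring
    rw [e6]
    exact Real.rpow_le_rpow_of_nonpos (by positivity) hp3 (by linarith)
  refine (Finset.sum_le_card_nsmul _ _ _ hle).trans ?_
  rw [nsmul_eq_mul]
  have hc : (((P t N).filter (fun p => ¬ p ≤ t ^ 2)).card : ℝ) ≤ t := by
    exact_mod_cast (Finset.card_filter_le _ _).trans (card_P ht N)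
  have e7 : (t : ℝ) ^ (θ - 1) = t * (t : ℝ) ^ (θ - 2) := by
    have : θ - 1 = 1 + (θ - 2) := by ring
    rw [this, Real.rpow_add ht0, Real.rpow_one]
  rw [e7]
  exact mul_le_mul_of_nonneg_right hc (Real.rpow_nonneg ht0.le _)

/-- Split at `p ≤ t^2`: there `w p = t` and `p = 1 + j t > j t` with distinct `1 ≤ j ≤ t`, so the sum is at
most `t^θ * (1/t) * (1 + log t)`.  For `p > t^2` we have `w p = √p`, `w p ^ θ / p = p^(θ/2-1) ≤ (t^2)^(θ/2-1) =
t^(θ-2)`, and there are at most `t` of them (`card_P`). -/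
theorem sum_P_weight {t : ℕ} (ht : 1 ≤ t) (N : ℕ) {θ : ℝ} (h0 : 0 ≤ θ) (h1 : θ ≤ 1) :
    ∑ p ∈ P t N, w p ^ θ / (p : ℝ) ≤ (t : ℝ) ^ (θ - 1) * (2 + Real.log t) := by
  rw [← Finset.sum_filter_add_sum_filter_not (P t N) (fun p => p ≤ t ^ 2)]
  have a := c2_small ht N h0
  have b := c2_large ht N h0 h1
  have c : (t : ℝ) ^ (θ - 1) * (2 + Real.log t) =
      (t : ℝ) ^ (θ - 1) * (1 + Real.log t) + (t : ℝ) ^ (θ - 1) := by ring
  rw [c]
  exact add_le_add a b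

end H58F
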