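import Pool.Agent.Lib.H58F.B
import Pool.Agent.Lib.H58F.C

/-!
# D: pseudoprimes with a large prime factor
-/

set_option autoImplicit false

namespace H58F

private theorem d_floor {s : ℝ} (hs : 1 ≤ s) : s ≤ 2 * (⌊s⌋₊ : ℝ) := by
  have h1 : s < (⌊s⌋₊ : ℝ) + 1 := Nat.lt_floor_add_one s
  have h2 : 1 ≤ ⌊s⌋₊ := (Nat.one_le_floor_iff s).2 hs
  have h3 : (1 : ℝ) ≤ (⌊s⌋₊ : ℝ) := by exact_mod_cast h2
  linarith

private theorem d_tail {s : ℝ} (hs : 1 ≤ s) (N : ℕ) :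
    ∑ t ∈ (Finset.Icc 1 N).filter (fun t : ℕ => ¬ (t : ℝ) ≤ s), ((t : ℝ) ^ 2)⁻¹ ≤ 2 / s := by
  have h2 : 1 ≤ ⌊s⌋₊ := (Nat.one_le_floor_iff s).2 hs
  have hpos : (0 : ℝ) < (⌊s⌋₊ : ℝ) := by exact_mod_cast h2
  have hs0 : 0 < s := by linarith
  by_cases hN : ⌊s⌋₊ ≤ N
  · have h3 : (Finset.Icc 1 N).filter (fun t : ℕ => ¬ (t : ℝ) ≤ s) ⊆ Finset.Ioc ⌊s⌋₊ N := by
      intro t ht
      rw [Finset.mem_filter, Finset.mem_Icc] at ht
      rw [Finset.mem_Ioc]
      refine ⟨?_, ht.1.2⟩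
      rw [Nat.floor_lt hs0.le]
      exact not_le.1 ht.2
    calc ∑ t ∈ (Finset.Icc 1 N).filter (fun t : ℕ => ¬ (t : ℝ) ≤ s), ((t : ℝ) ^ 2)⁻¹
        ≤ ∑ t ∈ Finset.Ioc ⌊s⌋₊ N, ((t : ℝ) ^ 2)⁻¹ :=
          Finset.sum_le_sum_of_subset_of_nonneg h3 fun t _ _ => by positivity
      _ ≤ (⌊s⌋₊ : ℝ)⁻¹ - (N : ℝ)⁻¹ := sum_Ioc_inv_sq_le_sub (by omega) hN
      _ ≤ (⌊s⌋₊ : ℝ)⁻¹ := by
          have : (0 : ℝ) ≤ (N : ℝ)⁻¹ := by positivity
          linarith
      _ ≤ 2 / s := by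
          rw [inv_eq_one_div, div_le_div_iff₀ hpos hs0]
          have := d_floor hs
          linarith
  · have h3 : (Finset.Icc 1 N).filter (fun t : ℕ => ¬ (t : ℝ) ≤ s) = ∅ := by
      rw [Finset.filter_eq_empty_iff]
      intro t ht
      rw [Finset.mem_Icc] at ht
      rw [not_not]
      have h4 : t ≤ ⌊s⌋₊ := by omega
      exact (Nat.le_floor_iff hs0.le).1 h4
    rw [h3, Finset.sum_empty]
    positivity

private theorem d_head {s : ℝ} (hs : 1 ≤ s) (N : ℕ) :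
    ∑ t ∈ (Finset.Icc 1 N).filter (fun t : ℕ => (t : ℝ) ≤ s), (1 / s ^ 2 : ℝ) ≤ 1 / s := by
  have hs0 : 0 < s := by linarith
  rw [Finset.sum_const, nsmul_eq_mul]
  have h1 : ((Finset.Icc 1 N).filter (fun t : ℕ => (t : ℝ) ≤ s)).card ≤ ⌊s⌋₊ := by
    calc ((Finset.Icc 1 N).filter (fun t : ℕ => (t : ℝ) ≤ s)).card ≤ (Finset.Icc 1 ⌊s⌋₊).card := by
          apply Finset.card_le_card
          intro t ht
          rw [Finset.mem_filter, Finset.mem_Icc] at ht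
          rw [Finset.mem_Icc]
          exact ⟨ht.1.1, (Nat.le_floor_iff hs0.le).2 ht.2⟩
      _ = ⌊s⌋₊ := by rw [Nat.card_Icc, Nat.add_sub_cancel]
  have h2 : (((Finset.Icc 1 N).filter (fun t : ℕ => (t : ℝ) ≤ s)).card : ℝ) ≤ s := by
    refine le_trans ?_ (Nat.floor_le hs0.le)
    exact_mod_cast h1
  calc (((Finset.Icc 1 N).filter (fun t : ℕ => (t : ℝ) ≤ s)).card : ℝ) * (1 / s ^ 2) ≤ s * (1 / s ^ 2) :=
        mul_le_mul_of_nonneg_right h2 (by positivity)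
    _ = 1 / s := by
        field_simp

/-- `∑_(z ≤ p < N) 1/(p o(p)) ≤ 3 (1 + log N) / √z`: sum over `t = o p ≥ 1`.  For `t ≤ √z`: at most `t` primes
(`card_P`), each term at most `1/(z t)`, together at most `√z / z`.  For `t > √z`: `sum_P_inv` gives
`(1 + log N) ∑_(t > √z) 1/t^2 ≤ (1 + log N) * 2/√z`. -/
theorem sum_large {N : ℕ} (hN : 1 ≤ N) {z : ℝ} (hz : 1 ≤ z) :
    ∑ p ∈ (Finset.range N).filter (fun p => p.Prime ∧ 0 < o p ∧ z ≤ (p : ℝ)),
      (1 : ℝ) / (p * o p) ≤ 3 * (1 + Real.log N) / Real.sqrt z := by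
  classical
  set S := (Finset.range N).filter (fun p => p.Prime ∧ 0 < o p ∧ z ≤ (p : ℝ)) with hS
  have hz0 : 0 < z := by linarith
  have hs : 1 ≤ Real.sqrt z := by
    rw [Real.one_le_sqrt]
    exact hz
  have hs0 : 0 < Real.sqrt z := by linarith
  have hsq : Real.sqrt z ^ 2 = z := Real.sq_sqrt hz0.le
  have hlog : 0 ≤ Real.log N := Real.log_natCast_nonneg N
  have hmap : ∀ p ∈ S, o p ∈ Finset.Icc 1 N := by
    intro p hp
    rw [hS, Finset.mem_filter, Finset.mem_range] at hp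
    rw [Finset.mem_Icc]
    refine ⟨hp.2.2.1, ?_⟩
    have h1 := o_le hp.2.1.ne_zero
    omega
  rw [← Finset.sum_fiberwise_of_maps_to hmap]
  have hsub : ∀ t, S.filter (fun p => o p = t) ⊆ P t N := by
    intro t p hp
    rw [Finset.mem_filter, hS, Finset.mem_filter] at hp
    unfold P
    rw [Finset.mem_filter]
    exact ⟨hp.1.1, hp.1.2.1, hp.2⟩
  have hterm1 : ∀ t ∈ (Finset.Icc 1 N).filter (fun t : ℕ => (t : ℝ) ≤ Real.sqrt z),
      ∑ p ∈ S.filter (fun p => o p = t), (1 : ℝ) / (p * o p) ≤ 1 / Real.sqrt z ^ 2 := by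
    intro t ht
    rw [Finset.mem_filter, Finset.mem_Icc] at ht
    have ht0 : (0 : ℝ) < t := by exact_mod_cast ht.1.1
    rw [hsq]
    have h1 : ∀ p ∈ S.filter (fun p => o p = t), (1 : ℝ) / (p * o p) ≤ 1 / (z * t) := by
      intro p hp
      rw [Finset.mem_filter] at hp
      have hp2 := hp.1
      rw [hS, Finset.mem_filter] at hp2
      rw [hp.2]
      exact one_div_le_one_div_of_le (by positivity) (mul_le_mul_of_nonneg_right hp2.2.2.2 ht0.le)
    have h2 : ((S.filter (fun p => o p = t)).card : ℝ) ≤ t := by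
      exact_mod_cast (Finset.card_le_card (hsub t)).trans (card_P ht.1.1 N)
    calc ∑ p ∈ S.filter (fun p => o p = t), (1 : ℝ) / (p * o p)
        ≤ ∑ _p ∈ S.filter (fun p => o p = t), 1 / (z * t) := Finset.sum_le_sum h1
      _ = (S.filter (fun p => o p = t)).card * (1 / (z * t)) := by rw [Finset.sum_const, nsmul_eq_mul]
      _ ≤ t * (1 / (z * t)) := mul_le_mul_of_nonneg_right h2 (by positivity)
      _ = 1 / z := by field_simp
  have hterm2 : ∀ t ∈ (Finset.Icc 1 N).filter (fun t : ℕ => ¬ (t : ℝ) ≤ Real.sqrt z),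
      ∑ p ∈ S.filter (fun p => o p = t), (1 : ℝ) / (p * o p) ≤ (1 + Real.log N) * ((t : ℝ) ^ 2)⁻¹ := by
    intro t ht
    rw [Finset.mem_filter, Finset.mem_Icc] at ht
    have ht0 : (0 : ℝ) < t := by exact_mod_cast ht.1.1
    calc ∑ p ∈ S.filter (fun p => o p = t), (1 : ℝ) / (p * o p)
        = ∑ p ∈ S.filter (fun p => o p = t), (1 / (t : ℝ)) * ((1 : ℝ) / p) := by
          refine Finset.sum_congr rfl fun p hp => ?_
          rw [Finset.mem_filter] at hp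
          rw [hp.2, one_div_mul_one_div, mul_comm]
      _ ≤ ∑ p ∈ P t N, (1 / (t : ℝ)) * ((1 : ℝ) / p) :=
          Finset.sum_le_sum_of_subset_of_nonneg (hsub t) fun p _ _ => by positivity
      _ = (1 / (t : ℝ)) * ∑ p ∈ P t N, (1 : ℝ) / p := by rw [Finset.mul_sum]
      _ ≤ (1 / (t : ℝ)) * ((1 + Real.log N) / t) :=
          mul_le_mul_of_nonneg_left (sum_P_inv ht.1.1 hN) (by positivity)
      _ = (1 + Real.log N) * ((t : ℝ) ^ 2)⁻¹ := by
          field_simp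
  rw [← Finset.sum_filter_add_sum_filter_not (Finset.Icc 1 N) (fun t : ℕ => (t : ℝ) ≤ Real.sqrt z)]
  have hA := (Finset.sum_le_sum hterm1).trans (d_head hs N)
  have hB : ∑ t ∈ (Finset.Icc 1 N).filter (fun t : ℕ => ¬ (t : ℝ) ≤ Real.sqrt z),
      ∑ p ∈ S.filter (fun p => o p = t), (1 : ℝ) / (p * o p) ≤ (1 + Real.log N) * (2 / Real.sqrt z) := by
    refine (Finset.sum_le_sum hterm2).trans ?_
    rw [← Finset.mul_sum]
    exact mul_le_mul_of_nonneg_left (d_tail hs N) (by linarith)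
  have hC : 1 / Real.sqrt z + (1 + Real.log N) * (2 / Real.sqrt z) ≤ 3 * (1 + Real.log N) / Real.sqrt z := by
    have h1 : 1 / Real.sqrt z + (1 + Real.log N) * (2 / Real.sqrt z) =
        (1 + 2 * (1 + Real.log N)) / Real.sqrt z := by
      field_simp
    rw [h1]
    apply div_le_div_of_nonneg_right _ hs0.le
    linarith
  linarith

private theorem d_odd {n p : ℕ} (h : n.FermatPsp 2) (hp : p ∣ n) : ¬ 2 ∣ p := by
  intro h2
  obtain ⟨h3, _, h4⟩ := h
  have h5 : 2 ∣ 2 ^ (n - 1) - 1 := (h2.trans hp).trans h3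
  have h6 : 2 ∣ 2 ^ (n - 1) := dvd_pow_self 2 (by omega)
  have h7 : 1 ≤ 2 ^ (n - 1) := Nat.one_le_two_pow
  omega

/-- Union over the primes `p ∈ [z, x)` of the sets of `card_psp_prime` (a pseudoprime is odd, so
`0 < o p` for its prime factors), `N = ⌈x⌉₊`, `log N ≤ 1 + log x`. -/
theorem big_prime (T : Finset ℕ) {x z : ℝ} (hx : 1 ≤ x) (hz : 1 ≤ z)
    (hT : ∀ n ∈ T, (n : ℝ) < x ∧ n.FermatPsp 2 ∧ ∃ p : ℕ, p.Prime ∧ p ∣ n ∧ z ≤ (p : ℝ)) :
    (T.card : ℝ) ≤ 3 * x * (2 + Real.log x) / Real.sqrt z := by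
  classical
  have hx0 : 0 < x := by linarith
  have hz0 : 0 < z := by linarith
  have hs0 : 0 < Real.sqrt z := Real.sqrt_pos.2 hz0
  set N := ⌈x⌉₊ with hNdef
  have hxN : x ≤ N := Nat.le_ceil x
  have hN : 1 ≤ N := by
    have h1 : (1 : ℝ) ≤ N := hx.trans hxN
    exact_mod_cast h1
  have hNx : (N : ℝ) ≤ 2 * x := by
    have h1 : (N : ℝ) < x + 1 := Nat.ceil_lt_add_one hx0.le
    linarith
  have hlogN : Real.log N ≤ 1 + Real.log x := by
    have h1 : Real.log N ≤ Real.log (2 * x) :=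
      Real.log_le_log (by exact_mod_cast hN) hNx
    rw [Real.log_mul (by norm_num) hx0.ne'] at h1
    have h2 : Real.log 2 ≤ 1 := by
      have := Real.log_two_lt_d9
      linarith
    linarith
  set S := (Finset.range N).filter (fun p => p.Prime ∧ 0 < o p ∧ z ≤ (p : ℝ)) with hS
  have hcov : T ⊆ S.biUnion (fun p => T.filter (fun n => p ∣ n)) := by
    intro n hn
    obtain ⟨h1, h2, p, hp, hpn, hzp⟩ := hT n hn
    rw [Finset.mem_biUnion]
    refine ⟨p, ?_, Finset.mem_filter.2 ⟨hn, hpn⟩⟩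
    rw [hS, Finset.mem_filter, Finset.mem_range]
    refine ⟨?_, hp, o_pos (d_odd h2 hpn), hzp⟩
    have h3 : p ≤ n := Nat.le_of_dvd (by have := h2.2.2; omega) hpn
    have h4 : (p : ℝ) < N := by
      have h5 : (p : ℝ) ≤ n := by exact_mod_cast h3
      linarith
    exact_mod_cast h4
  have h1 : (T.card : ℝ) ≤ ∑ p ∈ S, ((T.filter (fun n => p ∣ n)).card : ℝ) := by
    have h2 := (Finset.card_le_card hcov).trans Finset.card_biUnion_le
    exact_mod_cast h2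
  have h2 : ∀ p ∈ S, ((T.filter (fun n => p ∣ n)).card : ℝ) ≤ x * ((1 : ℝ) / (p * o p)) := by
    intro p hp
    rw [hS, Finset.mem_filter] at hp
    rw [mul_one_div]
    apply card_psp_prime _ hp.2.1 hx0.le
    intro n hn
    rw [Finset.mem_filter] at hn
    obtain ⟨h3, h4, _⟩ := hT n hn.1
    exact ⟨h3, h4, hn.2⟩
  calc (T.card : ℝ) ≤ ∑ p ∈ S, ((T.filter (fun n => p ∣ n)).card : ℝ) := h1
    _ ≤ ∑ p ∈ S, x * ((1 : ℝ) / (p * o p)) := Finset.sum_le_sum h2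
    _ = x * ∑ p ∈ S, (1 : ℝ) / (p * o p) := by rw [Finset.mul_sum]
    _ ≤ x * (3 * (1 + Real.log N) / Real.sqrt z) :=
        mul_le_mul_of_nonneg_left (sum_large hN hz) hx0.le
    _ = 3 * x * (1 + Real.log N) / Real.sqrt z := by ring
    _ ≤ 3 * x * (2 + Real.log x) / Real.sqrt z := by
        apply div_le_div_of_nonneg_right _ hs0.le
        apply mul_le_mul_of_nonneg_left _ (by positivity)
        linarith

end H58F
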