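import Mathlib

/-!
# H58F: base-2 pseudoprimes and the orders of 2 modulo their prime factors: definitions
-/

set_option autoImplicit false

namespace H58F

/-- The order of `2` modulo `d` (it is `0` if `d` is even or zero, and `1` if `d = 1`). -/
noncomputable def o (d : ℕ) : ℕ := orderOf (2 : ZMod d)

/-- The weight of a prime. -/
noncomputable def w (p : ℕ) : ℝ := max (orderOf (2 : ZMod p) : ℝ) (Real.sqrt p)

/-- The weight of a number, completely multiplicative. -/
noncomputable def W (n : ℕ) : ℝ := (n.primeFactorsList.map w).prod

/-- The primes `p < N` modulo which `2` has order `t`. -/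
noncomputable def P (t N : ℕ) : Finset ℕ := (Finset.range N).filter (fun p => p.Prime ∧ o p = t)

/-- `θ(u) = log log u / log u`. -/
noncomputable def th (u : ℝ) : ℝ := Real.log (Real.log u) / Real.log u

/-- `θ'(u) = (log log u + 1) / log u`. -/
noncomputable def th1 (u : ℝ) : ℝ := (Real.log (Real.log u) + 1) / Real.log u

/-- The sum over the primes `p < N` whose order divides `m` of the weights `w(p)^θ / p`. -/
noncomputable def SP (θ : ℝ) (m N : ℕ) : ℝ :=
  ∑ t ∈ m.divisors, ∑ p ∈ P t N, w p ^ θ / (p : ℝ)

end H58F
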