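import Pool.Agent.Lib.H58F.A2

/-!
# E: Rankin's method for the weighted numbers of a given order
-/

set_option autoImplicit false

namespace H58F

private theorem W_pos' (n : ℕ) : 0 < W n := lt_of_lt_of_le one_pos (W_one_le n)

/-- `V(d) = W(d)^θ / d` as a monoid homomorphism. -/
private noncomputable def Vhom (θ : ℝ) : ℕ →* ℝ where
  toFun n := W n ^ θ / (n : ℝ)
  map_one' := by rw [W_one, Real.one_rpow, Nat.cast_one, div_one]
  map_mul' a b := by
    by_cases ha : a = 0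
    · subst ha
      simp
    by_cases hb : b = 0
    · subst hb
      simp
    rw [W_mul ha hb, Real.mul_rpow (W_pos' a).le (W_pos' b).le, Nat.cast_mul, mul_div_mul_comm]

private theorem Vhom_apply (θ : ℝ) (n : ℕ) : Vhom θ n = W n ^ θ / (n : ℝ) := rfl

private theorem Vhom_nonneg (θ : ℝ) (n : ℕ) : 0 ≤ Vhom θ n := by
  rw [Vhom_apply]
  exact div_nonneg (Real.rpow_nonneg (W_pos' n).le _) (Nat.cast_nonneg n)

private theorem Vhom_prime_le {θ : ℝ} (h0 : 0 ≤ θ) (h1 : θ ≤ 1 / 2) {p : ℕ} (hp : p.Prime) :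
    Vhom θ p ≤ 1 / Real.sqrt p := by
  have hp0 : (0 : ℝ) < p := by exact_mod_cast hp.pos
  have hp1 : (1 : ℝ) ≤ p := by exact_mod_cast hp.one_lt.le
  have h2 : W p ^ θ ≤ Real.sqrt p := by
    rw [W_prime hp]
    calc w p ^ θ ≤ (p : ℝ) ^ θ :=
          Real.rpow_le_rpow (zero_le_one.trans (w_one_le hp)) (w_le hp) h0
      _ ≤ (p : ℝ) ^ (1 / 2 : ℝ) := Real.rpow_le_rpow_of_exponent_le hp1 h1
      _ = Real.sqrt p := (Real.sqrt_eq_rpow _).symm
  have hs : 0 < Real.sqrt p := Real.sqrt_pos.2 hp0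
  rw [Vhom_apply, div_le_div_iff₀ hp0 hs, one_mul]
  calc W p ^ θ * Real.sqrt p ≤ Real.sqrt p * Real.sqrt p :=
        mul_le_mul_of_nonneg_right h2 hs.le
    _ = p := Real.mul_self_sqrt hp0.le

private theorem Vhom_prime_lt {θ : ℝ} (h0 : 0 ≤ θ) (h1 : θ ≤ 1 / 2) {p : ℕ} (hp : p.Prime) :
    ‖Vhom θ p‖ < 1 := by
  rw [Real.norm_of_nonneg (Vhom_nonneg θ p)]
  refine (Vhom_prime_le h0 h1 hp).trans_lt ?_
  have h2 : (1 : ℝ) < Real.sqrt p := by
    rw [Real.lt_sqrt zero_le_one, one_pow]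
    exact_mod_cast hp.one_lt
  rw [div_lt_one (zero_lt_one.trans h2)]
  exact h2

private theorem geom_le {v : ℝ} (h0 : 0 ≤ v) (h1 : v ≤ 3 / 4) : (1 - v)⁻¹ ≤ Real.exp (4 * v) := by
  have h2 : 0 < 1 - v := by linarith
  rw [inv_le_iff_one_le_mul₀ h2]
  have h3 := Real.add_one_le_exp (4 * v)
  nlinarith [mul_nonneg h0 (by linarith : (0 : ℝ) ≤ 3 / 4 - v)]

private theorem Vhom_odd_le {θ : ℝ} (h0 : 0 ≤ θ) (h1 : θ ≤ 1 / 2) {p : ℕ} (hp : p.Prime)
    (h2 : 3 ≤ p) : Vhom θ p ≤ 3 / 4 := by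
  refine (Vhom_prime_le h0 h1 hp).trans ?_
  have h3 : (4 / 3 : ℝ) ≤ Real.sqrt p := by
    apply Real.le_sqrt_of_sq_le
    have : (3 : ℝ) ≤ p := by exact_mod_cast h2
    norm_num
    linarith
  rw [div_le_iff₀ (by linarith)]
  linarith

/-- `V(d) = W(d)^θ / d` is completely multiplicative with `V(p) ≤ p^(θ-1) ≤ 3^(-1/2)` for odd primes.
All prime factors `p` of an odd `d < N` with `o d = m` have `o p ∣ m` (`o_dvd_of_dvd`), so they lie in the
finite set `s = ⋃_(t ∣ m) P t N`, and the sum is at most `∏_(p ∈ s) (1 - V p)⁻¹ ≤ exp (4 ∑_(p ∈ s) V p)`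
(`EulerProduct.summable_and_hasSum_factoredNumbers_prod_filter_prime_geometric`; the sets `P t N` are
disjoint for distinct `t`). -/
theorem sum_V {θ : ℝ} (h0 : 0 ≤ θ) (h1 : θ ≤ 1 / 2) {m : ℕ} (hm : 1 ≤ m) (N : ℕ) :
    ∑ d ∈ (Finset.range N).filter (fun d => o d = m), W d ^ θ / (d : ℝ) ≤
      Real.exp (4 * SP θ m N) := by
  classical
  set s : Finset ℕ := m.divisors.biUnion (fun t => P t N) with hs
  have hsp : ∀ p ∈ s, p.Prime ∧ 3 ≤ p := by
    intro p hp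
    rw [hs, Finset.mem_biUnion] at hp
    obtain ⟨t, ht, hpt⟩ := hp
    rw [P, Finset.mem_filter] at hpt
    obtain ⟨-, hpp, hpo⟩ := hpt
    refine ⟨hpp, ?_⟩
    have ht0 : t ≠ 0 := (Nat.pos_of_mem_divisors ht).ne'
    have h2 : ¬ 2 ∣ p := fun h => ht0 (by rw [← hpo, o_eq_zero_of_even h])
    have h3 := hpp.two_le
    have h4 : p ≠ 2 := fun h => h2 (by rw [h])
    omega
  have hdisj : (m.divisors : Set ℕ).PairwiseDisjoint (fun t => P t N) := by
    intro t _ t' _ htt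
    rw [Function.onFun, Finset.disjoint_left]
    intro p hp hp'
    rw [P, Finset.mem_filter] at hp hp'
    exact htt (hp.2.2.symm.trans hp'.2.2)
  have hSP : SP θ m N = ∑ p ∈ s, Vhom θ p := by
    rw [hs, Finset.sum_biUnion hdisj, SP]
    refine Finset.sum_congr rfl fun t _ => Finset.sum_congr rfl fun p hp => ?_
    rw [P, Finset.mem_filter] at hp
    rw [Vhom_apply, W_prime hp.2.1]
  have hmem : ∀ d ∈ (Finset.range N).filter (fun d => o d = m), d ∈ Nat.factoredNumbers s := by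
    intro d hd
    rw [Finset.mem_filter, Finset.mem_range] at hd
    obtain ⟨hdN, hdm⟩ := hd
    have hd0 : d ≠ 0 := by
      rintro rfl
      rw [o_eq_zero_of_even (dvd_zero 2)] at hdm
      omega
    rw [Nat.mem_factoredNumbers]
    refine ⟨hd0, fun p hp => ?_⟩
    have hpp := Nat.prime_of_mem_primeFactorsList hp
    have hpd := Nat.dvd_of_mem_primeFactorsList hp
    have h2 : o p ∣ m := hdm ▸ o_dvd_of_dvd hpd
    rw [hs, Finset.mem_biUnion]
    refine ⟨o p, Nat.mem_divisors.2 ⟨h2, by omega⟩, ?_⟩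
    rw [P, Finset.mem_filter, Finset.mem_range]
    exact ⟨(Nat.le_of_dvd (Nat.pos_of_ne_zero hd0) hpd).trans_lt hdN, hpp, rfl⟩
  have hE := (EulerProduct.summable_and_hasSum_factoredNumbers_prod_filter_prime_geometric
    (f := Vhom θ) (fun hp => Vhom_prime_lt h0 h1 hp) s).2
  have h2 : ∑ d ∈ (Finset.range N).filter (fun d => o d = m), W d ^ θ / (d : ℝ) ≤
      ∏ p ∈ s with p.Prime, (1 - Vhom θ p)⁻¹ := by
    rw [← Finset.sum_subtype_of_mem (fun d : ℕ => W d ^ θ / (d : ℝ)) hmem]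
    exact sum_le_hasSum _ (fun i _ => Vhom_nonneg θ i) hE
  refine h2.trans ?_
  rw [Finset.filter_true_of_mem (fun p hp => (hsp p hp).1), hSP, Finset.mul_sum, Real.exp_sum]
  refine Finset.prod_le_prod (fun p hp => ?_) (fun p hp => ?_)
  · have := Vhom_odd_le h0 h1 (hsp p hp).1 (hsp p hp).2
    exact inv_nonneg.2 (by linarith)
  · exact geom_le (Vhom_nonneg θ p) (Vhom_odd_le h0 h1 (hsp p hp).1 (hsp p hp).2)

end H58F
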