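import Mathlib

/-!
# F: the sum of `t^(-c)` over the divisors `t` of `m`
-/

set_option autoImplicit false

namespace H58F

private theorem F_v {c : ℝ} (hc : 1 / 2 ≤ c) {p : ℕ} (hp : 2 ≤ p) : (0 : ℝ) ≤ (p : ℝ) ^ (-c) ∧ (p : ℝ) ^ (-c) ≤ 3 / 4 := by
  have hp0 : (0 : ℝ) ≤ p := Nat.cast_nonneg p
  have hp2 : (2 : ℝ) ≤ p := by exact_mod_cast hp
  have h0 : (0 : ℝ) ≤ (p : ℝ) ^ (-c) := Real.rpow_nonneg hp0 _
  have h1 : (p : ℝ) ^ (-c) * (p : ℝ) ^ (-c) ≤ 1 / 2 := by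
    rw [← Real.rpow_add (by linarith)]
    have h2 : (p : ℝ) ^ (-c + -c) ≤ (p : ℝ) ^ (-1 : ℝ) :=
      Real.rpow_le_rpow_of_exponent_le (by linarith) (by linarith)
    refine h2.trans ?_
    rw [Real.rpow_neg_one, ← one_div]
    exact one_div_le_one_div_of_le (by norm_num) hp2
  refine ⟨h0, ?_⟩
  nlinarith

private theorem F_exp {v : ℝ} (h0 : 0 ≤ v) (h1 : v ≤ 3 / 4) : 1 ≤ (1 - v) * Real.exp (4 * v) := by
  have h2 := Real.quadratic_le_exp_of_nonneg (x := 4 * v) (by linarith)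
  have h3 : 1 ≤ (1 - v) * (1 + 4 * v + (4 * v) ^ 2 / 2) := by
    nlinarith [mul_nonneg h0 h0, mul_nonneg (mul_nonneg h0 h0) (sub_nonneg.2 h1), mul_nonneg h0 (sub_nonneg.2 h1)]
  exact h3.trans (mul_le_mul_of_nonneg_left h2 (by linarith))

/-- `n ^ (-c)` as an arithmetic function -/
private noncomputable def F_g (c : ℝ) (hc : 1 / 2 ≤ c) : ArithmeticFunction ℝ :=
  ⟨fun n => (n : ℝ) ^ (-c), by
    show ((0 : ℕ) : ℝ) ^ (-c) = 0
    rw [Nat.cast_zero]
    exact Real.zero_rpow (by linarith)⟩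

private theorem F_mult (c : ℝ) (hc : 1 / 2 ≤ c) : (F_g c hc).IsMultiplicative := by
  refine ⟨?_, fun {m n} _ => ?_⟩
  · show ((1 : ℕ) : ℝ) ^ (-c) = 1
    rw [Nat.cast_one, Real.one_rpow]
  · show ((m * n : ℕ) : ℝ) ^ (-c) = (m : ℝ) ^ (-c) * (n : ℝ) ^ (-c)
    rw [Nat.cast_mul, Real.mul_rpow (Nat.cast_nonneg m) (Nat.cast_nonneg n)]

private theorem F_sum (c : ℝ) (hc : 1 / 2 ≤ c) (m : ℕ) :
    (F_g c hc * (ArithmeticFunction.zeta : ArithmeticFunction ℝ)) m = ∑ t ∈ m.divisors, (t : ℝ) ^ (-c) := by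
  rw [ArithmeticFunction.coe_mul_zeta_apply]
  rfl

private theorem F_pow {c : ℝ} (hc : 1 / 2 ≤ c) {p n : ℕ} (hp : p.Prime) :
    ∑ t ∈ (p ^ n).divisors, (t : ℝ) ^ (-c) ≤ Real.exp (4 * (p : ℝ) ^ (-c)) := by
  obtain ⟨h0, h1⟩ := F_v hc hp.two_le
  set v : ℝ := (p : ℝ) ^ (-c) with hv
  have h2 : ∑ t ∈ (p ^ n).divisors, (t : ℝ) ^ (-c) = ∑ i ∈ Finset.range (n + 1), v ^ i := by
    rw [Nat.sum_divisors_prime_pow hp]
    refine Finset.sum_congr rfl fun i _ => ?_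
    rw [hv, Nat.cast_pow, ← Real.rpow_natCast, ← Real.rpow_mul (Nat.cast_nonneg p), ← Real.rpow_natCast,
      ← Real.rpow_mul (Nat.cast_nonneg p), mul_comm]
  rw [h2]
  have h3 : (∑ i ∈ Finset.range (n + 1), v ^ i) * (1 - v) ≤ 1 := by
    rw [geom_sum_mul_neg]
    have := pow_nonneg h0 (n + 1)
    linarith
  have h4 := F_exp h0 h1
  have h5 : 0 < 1 - v := by linarith
  have h6 : (∑ i ∈ Finset.range (n + 1), v ^ i) * (1 - v) ≤ Real.exp (4 * v) * (1 - v) := by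
    rw [mul_comm (Real.exp (4 * v))]
    exact h3.trans h4
  exact le_of_mul_le_mul_right h6 h5

/-- The divisors of `m` are among the numbers with all prime factors in `m.primeFactors`: the sum is at
most `∏_(p ∣ m) (1 - p^(-c))⁻¹`, and `(1 - v)⁻¹ ≤ exp (4 v)` for `0 ≤ v ≤ 2^(-1/2)`. -/
theorem sum_div {c : ℝ} (hc : 1 / 2 ≤ c) {m : ℕ} (hm : 1 ≤ m) :
    ∑ t ∈ m.divisors, (t : ℝ) ^ (-c) ≤ Real.exp (4 * ∑ p ∈ m.primeFactors, (p : ℝ) ^ (-c)) := by
  have key : ∀ m : ℕ, m ≠ 0 →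
      (F_g c hc * (ArithmeticFunction.zeta : ArithmeticFunction ℝ)) m ≤
        Real.exp (4 * ∑ p ∈ m.primeFactors, (p : ℝ) ^ (-c)) := by
    intro m
    induction m using Nat.recOnPosPrimePosCoprime with
    | prime_pow p n hp hn =>
      intro _
      rw [F_sum, Nat.primeFactors_prime_pow hn.ne' hp, Finset.sum_singleton]
      exact F_pow hc hp
    | zero => exact fun h => absurd rfl h
    | one =>
      intro _
      rw [F_sum]
      simp
    | coprime a b ha hb hab iha ihb =>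
      intro _
      have hmul := ((F_mult c hc).mul
        (ArithmeticFunction.isMultiplicative_zeta.natCast (R := ℝ))).map_mul_of_coprime hab
      rw [hmul, hab.primeFactors_mul, Finset.sum_union hab.disjoint_primeFactors, mul_add, Real.exp_add]
      have h0 : ∀ x : ℕ, 0 ≤ (F_g c hc * (ArithmeticFunction.zeta : ArithmeticFunction ℝ)) x := by
        intro x
        rw [F_sum]
        exact Finset.sum_nonneg fun t _ => Real.rpow_nonneg (Nat.cast_nonneg t) _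
      exact mul_le_mul (iha (by omega)) (ihb (by omega)) (h0 b) (Real.exp_pos _).le
  have h := key m (by omega)
  rwa [F_sum] at h

end H58F
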