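import Pool.Agent.Lib.H58F.Defs

/-!
# G: sums over primes up to `u` with the exponent `θ'(u) - 1`
-/

set_option autoImplicit false

open Filter

namespace H58F

/-- Chebyshev: the number of primes in `(2^k, 2^(k+1)]` is at most `4 * 2^k / k`
(`primorial_le_four_pow`: the product of the primes `≤ 2^(k+1)` is at most `4^(2^(k+1))`). -/
theorem card_dyadic {k : ℕ} (hk : 1 ≤ k) :
    (((Finset.Ioc (2 ^ k) (2 ^ (k + 1))).filter Nat.Prime).card : ℝ) ≤ 4 * 2 ^ k / k := by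
  set S := (Finset.Ioc (2 ^ k) (2 ^ (k + 1))).filter Nat.Prime with hS
  have h1 : (2 ^ k) ^ S.card ≤ ∏ p ∈ S, p := by
    rw [← Finset.prod_const]
    refine Finset.prod_le_prod' fun p hp => ?_
    rw [hS, Finset.mem_filter, Finset.mem_Ioc] at hp
    exact hp.1.1.le
  have h2 : ∏ p ∈ S, p ≤ primorial (2 ^ (k + 1)) := by
    unfold primorial
    refine Finset.prod_le_prod_of_subset_of_one_le' ?_ ?_
    · intro p hp
      rw [hS, Finset.mem_filter, Finset.mem_Ioc] at hp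
      rw [Finset.mem_filter, Finset.mem_range]
      exact ⟨by omega, hp.2⟩
    · intro p hp _
      rw [Finset.mem_filter] at hp
      exact hp.2.one_lt.le
  have h3 := primorial_le_four_pow (2 ^ (k + 1))
  have h4 : 2 ^ (k * S.card) ≤ 2 ^ (2 * 2 ^ (k + 1)) := by
    calc 2 ^ (k * S.card) = (2 ^ k) ^ S.card := by rw [pow_mul]
      _ ≤ 4 ^ (2 ^ (k + 1)) := (h1.trans h2).trans h3
      _ = 2 ^ (2 * 2 ^ (k + 1)) := by rw [pow_mul]; norm_num
  have h5 : k * S.card ≤ 2 * 2 ^ (k + 1) := (Nat.pow_le_pow_iff_right (by norm_num)).1 h4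
  have h6 : (k : ℝ) * S.card ≤ 4 * 2 ^ k := by
    have : ((k * S.card : ℕ) : ℝ) ≤ ((2 * 2 ^ (k + 1) : ℕ) : ℝ) := by exact_mod_cast h5
    push_cast at this
    rw [pow_succ] at this
    linarith
  have hk0 : (0 : ℝ) < k := by exact_mod_cast hk
  rw [le_div_iff₀ hk0]
  linarith

private theorem g_block {θ : ℝ} (hθ : θ ≤ 1) (k : ℕ) (hk : 1 ≤ k) (S : Finset ℕ)
    (hS : ∀ p ∈ S, p.Prime ∧ 2 ^ k < p ∧ p ≤ 2 ^ (k + 1)) :
    ∑ p ∈ S, (p : ℝ) ^ (θ - 1) ≤ 4 * ((2 : ℝ) ^ θ) ^ k / k := by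
  have h1 : ∀ p ∈ S, (p : ℝ) ^ (θ - 1) ≤ ((2 : ℝ) ^ k) ^ (θ - 1) := by
    intro p hp
    have h := hS p hp
    have h2 : ((2 : ℝ) ^ k) ≤ p := by exact_mod_cast h.2.1.le
    exact Real.rpow_le_rpow_of_nonpos (by positivity) h2 (by linarith)
  have h2 := Finset.sum_le_card_nsmul S _ _ h1
  have h3 : (S.card : ℝ) ≤ 4 * 2 ^ k / k := by
    refine le_trans ?_ (card_dyadic hk)
    have h3' : S ⊆ (Finset.Ioc (2 ^ k) (2 ^ (k + 1))).filter Nat.Prime := by
      intro p hp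
      have h := hS p hp
      rw [Finset.mem_filter, Finset.mem_Ioc]
      exact ⟨h.2, h.1⟩
    exact_mod_cast Finset.card_le_card h3'
  rw [nsmul_eq_mul] at h2
  have h4 : (2 : ℝ) ^ k * ((2 : ℝ) ^ k) ^ (θ - 1) = ((2 : ℝ) ^ θ) ^ k := by
    have h5 : (0 : ℝ) < 2 ^ k := by positivity
    rw [Real.rpow_sub_one h5.ne', mul_div_cancel₀ _ h5.ne', ← Real.rpow_natCast,
      ← Real.rpow_natCast, ← Real.rpow_mul (by norm_num), ← Real.rpow_mul (by norm_num), mul_comm]
  have h6 : (0 : ℝ) ≤ ((2 : ℝ) ^ k) ^ (θ - 1) := by positivity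
  calc ∑ p ∈ S, (p : ℝ) ^ (θ - 1) ≤ S.card * ((2 : ℝ) ^ k) ^ (θ - 1) := h2
    _ ≤ (4 * 2 ^ k / k) * ((2 : ℝ) ^ k) ^ (θ - 1) := mul_le_mul_of_nonneg_right h3 h6
    _ = 4 * ((2 : ℝ) ^ k * ((2 : ℝ) ^ k) ^ (θ - 1)) / k := by ring
    _ = 4 * ((2 : ℝ) ^ θ) ^ k / k := by rw [h4]

private theorem g_sum {θ : ℝ} (hθ : θ ≤ 1) (N : ℕ) :
    ∑ p ∈ (Finset.Icc 1 N).filter Nat.Prime, (p : ℝ) ^ (θ - 1) ≤
      1 + ∑ k ∈ Finset.range (Nat.log 2 N), 4 * ((2 : ℝ) ^ θ) ^ (k + 1) / ((k + 1 : ℕ) : ℝ) := by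
  have hmap : ∀ p ∈ (Finset.Icc 1 N).filter Nat.Prime,
      Nat.log 2 (p - 1) ∈ Finset.range (Nat.log 2 N + 1) := by
    intro p hp
    rw [Finset.mem_filter, Finset.mem_Icc] at hp
    rw [Finset.mem_range]
    exact Nat.lt_succ_of_le (Nat.log_mono_right (by omega))
  rw [← Finset.sum_fiberwise_of_maps_to hmap, Finset.sum_range_succ', add_comm]
  refine add_le_add ?_ (Finset.sum_le_sum fun k _ => ?_)
  · have h1 : ∀ p ∈ ((Finset.Icc 1 N).filter Nat.Prime).filter (fun p => Nat.log 2 (p - 1) = 0),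
        (p : ℝ) ^ (θ - 1) ≤ 1 := by
      intro p hp
      rw [Finset.mem_filter, Finset.mem_filter, Finset.mem_Icc] at hp
      exact Real.rpow_le_one_of_one_le_of_nonpos (by exact_mod_cast hp.1.1.1) (by linarith)
    have h2 := Finset.sum_le_card_nsmul _ _ _ h1
    have h3 : (((Finset.Icc 1 N).filter Nat.Prime).filter
        (fun p => Nat.log 2 (p - 1) = 0)).card ≤ 1 := by
      have h3' : ((Finset.Icc 1 N).filter Nat.Prime).filter (fun p => Nat.log 2 (p - 1) = 0) ⊆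
          {2} := by
        intro p hp
        rw [Finset.mem_filter, Finset.mem_filter, Finset.mem_Icc] at hp
        rw [Finset.mem_singleton]
        have h4 := hp.1.2.two_le
        rcases Nat.log_eq_zero_iff.1 hp.2 with h | h <;> omega
      exact (Finset.card_le_card h3').trans (by simp)
    refine h2.trans ?_
    rw [nsmul_eq_mul, mul_one]
    exact_mod_cast h3
  · refine g_block hθ (k + 1) (by omega) _ fun p hp => ?_
    rw [Finset.mem_filter, Finset.mem_filter, Finset.mem_Icc] at hp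
    have h4 := hp.1.2.two_le
    have h5 : Nat.log 2 (p - 1) = k + 1 := hp.2
    have h6 : 2 ^ (k + 1) ≤ p - 1 := by
      rw [← h5]; exact Nat.pow_log_le_self 2 (by omega)
    have h7 : p - 1 < 2 ^ (k + 1 + 1) := by
      rw [← h5]; exact Nat.lt_pow_succ_log_self (by norm_num) _
    exact ⟨hp.1.2, by omega, by omega⟩

private theorem g_main (η l : ℝ) (hη : 0 < η) (hl : 2 ≤ l) (h1 : 384 ≤ η * l) (K : ℕ)
    (hK : K * Real.log 2 ≤ Real.exp l) :
    1 + ∑ k ∈ Finset.range K,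
      4 * ((2 : ℝ) ^ ((l + 1) / Real.exp l)) ^ (k + 1) / ((k + 1 : ℕ) : ℝ) ≤
        η * Real.exp l := by
  set L := Real.exp l with hL
  set θ := (l + 1) / L with hθ
  set r := (2 : ℝ) ^ θ with hr
  have hL0 : 0 < L := Real.exp_pos _
  have hlL : l + 1 ≤ L := Real.add_one_le_exp l
  have hθ0 : 0 < θ := div_pos (by linarith) hL0
  have hθ1 : θ ≤ 1 := by rw [hθ, div_le_one hL0]; exact hlL
  have hθL : θ * L = l + 1 := by rw [hθ]; field_simp
  have hr' : r = Real.exp (Real.log 2 * θ) := by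
    rw [hr, Real.rpow_def_of_pos (by norm_num)]
  have hlog2 : Real.log 2 ≤ 1 := by
    have := Real.log_two_lt_d9; linarith
  have hlog2' : 1 / 2 ≤ Real.log 2 := by
    have := Real.log_two_gt_d9; linarith
  have hr1 : θ / 2 ≤ r - 1 := by
    have h2 : Real.log 2 * θ + 1 ≤ r := by rw [hr']; exact Real.add_one_le_exp _
    have h3 : 1 / 2 * θ ≤ Real.log 2 * θ := mul_le_mul_of_nonneg_right hlog2' hθ0.le
    linarith
  have hr2 : r ≤ 2 := by
    calc r ≤ (2 : ℝ) ^ (1 : ℝ) := Real.rpow_le_rpow_of_exponent_le (by norm_num) hθ1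
      _ = 2 := Real.rpow_one 2
  have hr0 : 0 < r := by rw [hr']; exact Real.exp_pos _
  have hrm : ∀ m : ℕ, r ^ m = Real.exp (m * (Real.log 2 * θ)) := by
    intro m
    rw [hr', ← Real.exp_nat_mul]
  have hpt : ∀ k ∈ Finset.range K, 4 * r ^ (k + 1) / ((k + 1 : ℕ) : ℝ) ≤
      4 * Real.exp ((l + 1) / 2) * ((k + 1 : ℕ) : ℝ)⁻¹ + 8 / L * r ^ (k + 1) := by
    intro k _
    have hm0 : (0 : ℝ) < ((k + 1 : ℕ) : ℝ) := by positivity
    have hrk : 0 < r ^ (k + 1) := by positivity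
    by_cases hc : ((k + 1 : ℕ) : ℝ) ≤ L / 2
    · have h2 : r ^ (k + 1) ≤ Real.exp ((l + 1) / 2) := by
        rw [hrm]
        refine Real.exp_le_exp.2 ?_
        calc ((k + 1 : ℕ) : ℝ) * (Real.log 2 * θ) ≤ (L / 2) * (1 * θ) := by
              refine mul_le_mul hc (mul_le_mul_of_nonneg_right hlog2 hθ0.le) (by positivity)
                (by positivity)
          _ = (l + 1) / 2 := by rw [← hθL]; ring
      have h3 : 4 * r ^ (k + 1) / ((k + 1 : ℕ) : ℝ) ≤
          4 * Real.exp ((l + 1) / 2) * ((k + 1 : ℕ) : ℝ)⁻¹ := by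
        rw [div_eq_mul_inv]
        exact mul_le_mul_of_nonneg_right (by linarith) (by positivity)
      have h4 : 0 ≤ 8 / L * r ^ (k + 1) := by positivity
      linarith
    · rw [not_le] at hc
      have h3 : ((k + 1 : ℕ) : ℝ)⁻¹ ≤ 2 / L := by
        rw [inv_le_comm₀ hm0 (by positivity), inv_div]
        exact hc.le
      have h4 : 4 * r ^ (k + 1) / ((k + 1 : ℕ) : ℝ) ≤ 8 / L * r ^ (k + 1) := by
        calc 4 * r ^ (k + 1) / ((k + 1 : ℕ) : ℝ) = 4 * r ^ (k + 1) * ((k + 1 : ℕ) : ℝ)⁻¹ :=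
              div_eq_mul_inv _ _
          _ ≤ 4 * r ^ (k + 1) * (2 / L) := mul_le_mul_of_nonneg_left h3 (by positivity)
          _ = 8 / L * r ^ (k + 1) := by ring
      have h5 : 0 ≤ 4 * Real.exp ((l + 1) / 2) * ((k + 1 : ℕ) : ℝ)⁻¹ := by positivity
      linarith
  have hsum := Finset.sum_le_sum hpt
  rw [Finset.sum_add_distrib, ← Finset.mul_sum, ← Finset.mul_sum] at hsum
  -- harmonic part
  have hH : ∑ k ∈ Finset.range K, ((k + 1 : ℕ) : ℝ)⁻¹ ≤ 2 * l := by
    have h2 : ∑ k ∈ Finset.range K, ((k + 1 : ℕ) : ℝ)⁻¹ = ((harmonic K : ℚ) : ℝ) := by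
      simp [harmonic]
    rw [h2]
    refine (harmonic_le_one_add_log K).trans ?_
    have h3 : Real.log K ≤ l + 1 := by
      rcases Nat.eq_zero_or_pos K with h0 | h0
      · rw [h0]; simp; linarith
      · have hK0 : (0 : ℝ) < K := by exact_mod_cast h0
        have h4 : (K : ℝ) ≤ 2 * L := by
          have h4a : (K : ℝ) * (1 / 2) ≤ K * Real.log 2 :=
            mul_le_mul_of_nonneg_left hlog2' hK0.le
          linarith
        calc Real.log K ≤ Real.log (2 * L) := Real.log_le_log hK0 h4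
          _ = Real.log 2 + l := by rw [Real.log_mul (by norm_num) hL0.ne', hL, Real.log_exp]
          _ ≤ l + 1 := by linarith
    linarith
  have he1 : Real.exp ((l + 1) / 2) ≤ 2 * Real.exp (l / 2) := by
    have h2 : Real.exp (1 / 2) ≤ 2 := by
      have h3 : Real.exp (1 / 2) * Real.exp (1 / 2) = Real.exp 1 := by
        rw [← Real.exp_add]; norm_num
      have h4 := Real.exp_one_lt_d9
      have h5 := Real.exp_pos (1 / 2)
      nlinarith
    have h6 : Real.exp ((l + 1) / 2) = Real.exp (1 / 2) * Real.exp (l / 2) := by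
      rw [← Real.exp_add]; ring_nf
    rw [h6]
    exact mul_le_mul_of_nonneg_right h2 (Real.exp_pos _).le
  have he2 : l ^ 2 / 8 ≤ Real.exp (l / 2) := by
    have h2 := Real.quadratic_le_exp_of_nonneg (x := l / 2) (by linarith)
    have h3 : 1 + l / 2 + (l / 2) ^ 2 / 2 = l ^ 2 / 8 + (1 + l / 2) := by ring
    rw [h3] at h2
    linarith
  have he3 : Real.exp (l / 2) * Real.exp (l / 2) = L := by
    rw [← Real.exp_add, hL]; ring_nf
  have hA : 4 * Real.exp ((l + 1) / 2) * ∑ k ∈ Finset.range K, ((k + 1 : ℕ) : ℝ)⁻¹ ≤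
      η / 3 * L := by
    have h2 : 4 * Real.exp ((l + 1) / 2) * ∑ k ∈ Finset.range K, ((k + 1 : ℕ) : ℝ)⁻¹ ≤
        8 * Real.exp (l / 2) * (2 * l) := by
      refine mul_le_mul (by linarith) hH (Finset.sum_nonneg fun k _ => by positivity)
        (by positivity)
    refine h2.trans ?_
    have h3 : 8 * (2 * l) ≤ η / 3 * Real.exp (l / 2) := by
      have h4 : η / 3 * (l ^ 2 / 8) ≤ η / 3 * Real.exp (l / 2) :=
        mul_le_mul_of_nonneg_left he2 (by positivity)
      have h5 : 8 * (2 * l) ≤ η / 3 * (l ^ 2 / 8) := by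
        have h6 : η / 3 * (l ^ 2 / 8) = (η * l) * l / 24 := by ring
        have h7 : 384 * l ≤ η * l * l := mul_le_mul_of_nonneg_right h1 (by linarith)
        rw [h6]
        linarith
      linarith
    calc 8 * Real.exp (l / 2) * (2 * l) = 8 * (2 * l) * Real.exp (l / 2) := by ring
      _ ≤ η / 3 * Real.exp (l / 2) * Real.exp (l / 2) :=
          mul_le_mul_of_nonneg_right h3 (Real.exp_pos _).le
      _ = η / 3 * L := by rw [mul_assoc, he3]
  -- geometric part
  have hG : (r - 1) * ∑ k ∈ Finset.range K, r ^ (k + 1) ≤ 2 * (3 * L) := by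
    have h2 : ∑ k ∈ Finset.range K, r ^ (k + 1) = r * ∑ k ∈ Finset.range K, r ^ k := by
      rw [Finset.mul_sum]
      exact Finset.sum_congr rfl fun k _ => by rw [pow_succ, mul_comm]
    have h3 := geom_sum_mul r K
    have h4 : (r - 1) * (r * ∑ k ∈ Finset.range K, r ^ k) = r * (r ^ K - 1) := by
      rw [← h3]; ring
    rw [h2, h4]
    have h5 : r ^ K ≤ 3 * L := by
      rw [hrm]
      have h6 : (K : ℝ) * (Real.log 2 * θ) ≤ l + 1 := by
        calc (K : ℝ) * (Real.log 2 * θ) = (K * Real.log 2) * θ := by ring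
          _ ≤ L * θ := mul_le_mul_of_nonneg_right hK hθ0.le
          _ = l + 1 := by rw [mul_comm, hθL]
      calc Real.exp (K * (Real.log 2 * θ)) ≤ Real.exp (l + 1) := Real.exp_le_exp.2 h6
        _ = L * Real.exp 1 := by rw [Real.exp_add]
        _ ≤ L * 3 := mul_le_mul_of_nonneg_left (by have := Real.exp_one_lt_d9; linarith) hL0.le
        _ = 3 * L := by ring
    calc r * (r ^ K - 1) ≤ r * r ^ K := mul_le_mul_of_nonneg_left (by linarith) hr0.le
      _ ≤ 2 * (3 * L) := mul_le_mul hr2 h5 (by positivity) (by norm_num)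
  have hG0 : 0 ≤ ∑ k ∈ Finset.range K, r ^ (k + 1) := Finset.sum_nonneg fun k _ => by positivity
  have hB : 8 / L * ∑ k ∈ Finset.range K, r ^ (k + 1) ≤ η / 3 * L := by
    set G := ∑ k ∈ Finset.range K, r ^ (k + 1) with hGdef
    have h2 : θ / 2 * G ≤ 2 * (3 * L) := (mul_le_mul_of_nonneg_right hr1 hG0).trans hG
    have h3 : (l + 1) * G ≤ 12 * L ^ 2 := by
      have h4 : θ * L * G ≤ 12 * L ^ 2 := by
        have h4a : (2 * L) * (θ / 2 * G) ≤ (2 * L) * (2 * (3 * L)) :=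
          mul_le_mul_of_nonneg_left h2 (by positivity)
        have h4b : (2 * L) * (θ / 2 * G) = θ * L * G := by ring
        have h4c : (2 * L) * (2 * (3 * L)) = 12 * L ^ 2 := by ring
        rw [h4b, h4c] at h4a
        exact h4a
      rwa [hθL] at h4
    have h5 : l * G ≤ 12 * L ^ 2 := by
      have h5a : (l + 1) * G = l * G + G := by ring
      rw [h5a] at h3
      linarith
    have h6 : 8 * G ≤ η / 3 * L ^ 2 := by
      have h7 : η * (l * G) ≤ η * (12 * L ^ 2) := mul_le_mul_of_nonneg_left h5 hη.le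
      have h8 : 384 * G ≤ η * l * G := mul_le_mul_of_nonneg_right h1 hG0
      have h9 : η * l * G = η * (l * G) := by ring
      have h10 : 384 * G ≤ η * (12 * L ^ 2) := by rw [h9] at h8; exact h8.trans h7
      have h11 : 0 ≤ η * L ^ 2 := by positivity
      linarith
    rw [div_mul_eq_mul_div, div_le_iff₀ hL0]
    have h12 : η / 3 * L * L = η / 3 * L ^ 2 := by ring
    rw [h12]
    exact h6
  have hC : 1 ≤ η / 3 * L := by
    have h2 : η * l ≤ η * L := mul_le_mul_of_nonneg_left (by linarith) hη.le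
    linarith
  linarith

/-- With `K = log u / log 2`, `u^(θ') = e log u`: the sum is at most `1 + ∑_(1 ≤ k ≤ K) 4 * 2^(k θ') / k`
(`card_dyadic`; `p^(θ'-1) ≤ 2^(k(θ'-1))` in the block).  For `k ≤ K/2`: `2^(k θ') ≤ (e log u)^(1/2)`, in total at
most `4 (e log u)^(1/2) (1 + log K)`.  For `k > K/2`: `1/k ≤ 2/K` and `∑ 2^(k θ') ≤ 2^(θ'(K+1)) / (2^θ' - 1) ≤
2 e log u / (θ' log 2)`, in total `O(log u / (log log u + 1))`. -/
theorem sum_primes (η : ℝ) (hη : 0 < η) :
    ∀ᶠ u : ℝ in atTop,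
      ∑ p ∈ (Finset.Icc 1 ⌊u⌋₊).filter Nat.Prime, (p : ℝ) ^ (th1 u - 1) ≤ η * Real.log u := by
  have h1 : ∀ᶠ u : ℝ in atTop, max 2 (384 / η) ≤ Real.log (Real.log u) :=
    (Real.tendsto_log_atTop.comp Real.tendsto_log_atTop).eventually_ge_atTop _
  have h2 : ∀ᶠ u : ℝ in atTop, 1 ≤ Real.log u := Real.tendsto_log_atTop.eventually_ge_atTop _
  filter_upwards [h1, h2, eventually_ge_atTop 1] with u hu1 hu2 hu3
  have hl2 : 2 ≤ Real.log (Real.log u) := (le_max_left _ _).trans hu1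
  have hl3 : 384 ≤ η * Real.log (Real.log u) := by
    have := (le_max_right _ _).trans hu1
    rw [div_le_iff₀ hη] at this
    linarith
  have hL : Real.exp (Real.log (Real.log u)) = Real.log u := Real.exp_log (by linarith)
  have hN : 1 ≤ ⌊u⌋₊ := Nat.le_floor (by exact_mod_cast hu3)
  have hK : (Nat.log 2 ⌊u⌋₊ : ℝ) * Real.log 2 ≤ Real.exp (Real.log (Real.log u)) := by
    rw [hL, ← Real.log_pow]
    refine Real.log_le_log (by positivity) ?_
    have h3 : 2 ^ Nat.log 2 ⌊u⌋₊ ≤ ⌊u⌋₊ := Nat.pow_log_le_self 2 (by omega)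
    have h4 : ((2 ^ Nat.log 2 ⌊u⌋₊ : ℕ) : ℝ) ≤ (⌊u⌋₊ : ℝ) := by exact_mod_cast h3
    have h5 : (⌊u⌋₊ : ℝ) ≤ u := Nat.floor_le (by linarith)
    push_cast at h4
    linarith
  have hm := g_main η (Real.log (Real.log u)) hη hl2 hl3 _ hK
  rw [hL] at hm
  have hθ1 : th1 u ≤ 1 := by
    unfold th1
    rw [div_le_one (by linarith)]
    have := Real.add_one_le_exp (Real.log (Real.log u))
    rw [hL] at this
    exact this
  exact (g_sum hθ1 _).trans hm

end H58F
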