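import Pool.Agent.Lib.H58F.G

/-!
# G2: sums over the prime factors of `m`
-/

set_option autoImplicit false

open Filter

namespace H58F

/-- The primes `p > u` dividing `m`: at most `log m / log u ≤ u / log u` of them, each term is at most
`u^(θ'-1) = e log u / u`, in total at most `e ≤ (η/2) log u`. -/
theorem sum_primeFactors (η : ℝ) (hη : 0 < η) :
    ∀ᶠ u : ℝ in atTop, ∀ m : ℕ, 1 ≤ m → Real.log m ≤ u →
      ∑ p ∈ m.primeFactors, (p : ℝ) ^ (th1 u - 1) ≤ η * Real.log u := by
  have h1 : ∀ᶠ u : ℝ in atTop, 2 * Real.exp 1 / η ≤ Real.log u :=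
    Real.tendsto_log_atTop.eventually_ge_atTop _
  have h2 : ∀ᶠ u : ℝ in atTop, 1 ≤ Real.log u := Real.tendsto_log_atTop.eventually_ge_atTop _
  filter_upwards [h1, h2, eventually_ge_atTop 1, sum_primes (η / 2) (by positivity)] with
    u hu1 hu2 hu3 hu4
  intro m hm hmu
  have hu0 : 0 < u := by linarith
  have hL0 : 0 < Real.log u := by linarith
  have hθ1 : th1 u ≤ 1 := by
    unfold th1
    rw [div_le_one hL0]
    have := Real.add_one_le_exp (Real.log (Real.log u))
    rw [Real.exp_log hL0] at this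
    exact this
  rw [← Finset.sum_filter_add_sum_filter_not m.primeFactors (fun p => p ≤ ⌊u⌋₊)]
  have hA : ∑ p ∈ m.primeFactors.filter (fun p => p ≤ ⌊u⌋₊), (p : ℝ) ^ (th1 u - 1) ≤
      η / 2 * Real.log u := by
    refine le_trans (Finset.sum_le_sum_of_subset_of_nonneg ?_ fun p _ _ => by positivity) hu4
    intro p hp
    rw [Finset.mem_filter] at hp
    have hp' := Nat.prime_of_mem_primeFactors hp.1
    rw [Finset.mem_filter, Finset.mem_Icc]
    exact ⟨⟨hp'.one_lt.le, hp.2⟩, hp'⟩
  have hB : ∑ p ∈ m.primeFactors.filter (fun p => ¬ p ≤ ⌊u⌋₊), (p : ℝ) ^ (th1 u - 1) ≤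
      Real.exp 1 := by
    set S := m.primeFactors.filter (fun p => ¬ p ≤ ⌊u⌋₊) with hS
    have hSu : ∀ p ∈ S, u ≤ (p : ℝ) := by
      intro p hp
      rw [hS, Finset.mem_filter, not_le] at hp
      exact (Nat.lt_of_floor_lt hp.2).le
    have hcard : (S.card : ℝ) * Real.log u ≤ u := by
      have h3 : ∏ p ∈ S, p ≤ m := by
        refine Nat.le_of_dvd hm ?_
        refine dvd_trans (Finset.prod_dvd_prod_of_subset _ _ _ (Finset.filter_subset _ _)) ?_
        exact Nat.prod_primeFactors_dvd m
      have h4 : u ^ S.card ≤ m := by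
        have h5 : u ^ S.card ≤ ∏ p ∈ S, (p : ℝ) := by
          rw [← Finset.prod_const]
          exact Finset.prod_le_prod (fun _ _ => hu0.le) hSu
        refine h5.trans ?_
        have h6 : ((∏ p ∈ S, p : ℕ) : ℝ) ≤ (m : ℝ) := Nat.cast_le.2 h3
        rw [Nat.cast_prod] at h6
        exact h6
      have h5 : Real.log (u ^ S.card) ≤ Real.log m := Real.log_le_log (by positivity) h4
      rw [Real.log_pow] at h5
      linarith
    have hterm : ∀ p ∈ S, (p : ℝ) ^ (th1 u - 1) ≤ Real.log u * Real.exp 1 / u := by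
      intro p hp
      have h6 : (p : ℝ) ^ (th1 u - 1) ≤ u ^ (th1 u - 1) :=
        Real.rpow_le_rpow_of_nonpos hu0 (hSu p hp) (by linarith)
      refine h6.trans (le_of_eq ?_)
      rw [Real.rpow_sub_one hu0.ne']
      congr 1
      rw [Real.rpow_def_of_pos hu0]
      have h7 : Real.log u * th1 u = Real.log (Real.log u) + 1 := by
        unfold th1
        field_simp
      rw [h7, Real.exp_add, Real.exp_log hL0]
    have h8 := Finset.sum_le_card_nsmul S _ _ hterm
    rw [nsmul_eq_mul] at h8
    refine h8.trans ?_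
    have h9 : (S.card : ℝ) * (Real.log u * Real.exp 1 / u) =
        (S.card * Real.log u) * (Real.exp 1 / u) := by ring
    rw [h9]
    calc (S.card * Real.log u) * (Real.exp 1 / u) ≤ u * (Real.exp 1 / u) :=
          mul_le_mul_of_nonneg_right hcard (by positivity)
      _ = Real.exp 1 := by field_simp
  have hC : Real.exp 1 ≤ η / 2 * Real.log u := by
    rw [div_le_iff₀ hη] at hu1
    linarith
  linarith

end H58F
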