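import Pool.Agent.Lib.H58F.C2
import Pool.Agent.Lib.H58F.F
import Pool.Agent.Lib.H58F.G2

/-!
# H: the exponent is `o(u θ(u))`
-/

set_option autoImplicit false

open Filter

namespace H58F

private theorem H_term {u : ℝ} (h1 : 4 ≤ Real.log u) {t : ℕ} (ht : 1 ≤ t) :
    (t : ℝ) ^ (th u - 1) * (2 + Real.log t) ≤ (2 + Real.log u) * (t : ℝ) ^ (-(1 - th1 u)) := by
  have htr : (1 : ℝ) ≤ t := by exact_mod_cast ht
  have htp : (0 : ℝ) < t := by linarith
  have hlt : 0 ≤ Real.log t := Real.log_nonneg htr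
  have hlu : 0 < Real.log u := by linarith
  have hs0 : 0 ≤ Real.log t / Real.log u := div_nonneg hlt hlu.le
  have he1 : Real.log t / Real.log u ≤ Real.exp (Real.log t / Real.log u) := by
    have := Real.add_one_le_exp (Real.log t / Real.log u)
    linarith
  have he2 : 1 ≤ Real.exp (Real.log t / Real.log u) := by
    have := Real.add_one_le_exp (Real.log t / Real.log u)
    linarith
  have hlog : Real.log t = Real.log u * (Real.log t / Real.log u) := by
    field_simp
  have h2 : 2 + Real.log t ≤ (2 + Real.log u) * Real.exp (Real.log t / Real.log u) := by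
    have h3 : Real.log u * (Real.log t / Real.log u) ≤
        Real.log u * Real.exp (Real.log t / Real.log u) := mul_le_mul_of_nonneg_left he1 hlu.le
    nlinarith
  have h4 : Real.exp (Real.log t / Real.log u) = (t : ℝ) ^ (1 / Real.log u) := by
    rw [Real.rpow_def_of_pos htp]
    congr 1
    ring
  have h5 : (t : ℝ) ^ (-(1 - th1 u)) = (t : ℝ) ^ (th u - 1) * (t : ℝ) ^ (1 / Real.log u) := by
    rw [← Real.rpow_add htp]
    congr 1
    unfold th th1
    ring
  rw [h5, ← h4]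
  have h6 : (0 : ℝ) ≤ (t : ℝ) ^ (th u - 1) := Real.rpow_nonneg htp.le _
  calc (t : ℝ) ^ (th u - 1) * (2 + Real.log t)
      ≤ (t : ℝ) ^ (th u - 1) * ((2 + Real.log u) * Real.exp (Real.log t / Real.log u)) :=
        mul_le_mul_of_nonneg_left h2 h6
    _ = (2 + Real.log u) * ((t : ℝ) ^ (th u - 1) * Real.exp (Real.log t / Real.log u)) := by ring

/-- `sum_P_weight` with `θ = th u`: `SP ≤ ∑_(t ∣ m) t^(θ-1) (2 + log t)`, and `2 + log t ≤ (2 + log u) t^(1/log u)`
(for `log t = log u * s ≤ log u * exp s`, `s = log t / log u ≥ 0`), so `SP ≤ (2 + log u) ∑_(t ∣ m) t^(θ'-1)`,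
`θ' = th1 u`; by `sum_div` and `sum_primeFactors` with `η = 1/16` this is at most
`(2 + log u) exp (log u / 4) = (2 + log u) u^(1/4)`, which is `o(u loglog u / log u)`. -/
theorem SP_le (κ : ℝ) (hκ : 0 < κ) :
    ∀ᶠ u : ℝ in atTop, ∀ m N : ℕ, 1 ≤ m → Real.log m ≤ u →
      4 * SP (th u) m N ≤ κ * u * th u := by
  have e1 : ∀ᶠ u : ℝ in atTop, 4 ≤ Real.log u := Real.tendsto_log_atTop.eventually_ge_atTop 4
  have e2 : ∀ᶠ u : ℝ in atTop, Real.log (Real.log u) ≤ 1 / 4 * Real.log u := by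
    have h := Real.isLittleO_log_id_atTop.def (show (0 : ℝ) < 1 / 4 by norm_num)
    have h2 := Real.tendsto_log_atTop.eventually h
    filter_upwards [h2, e1] with u hu hu1
    have h3 : |Real.log (Real.log u)| ≤ 1 / 4 * |Real.log u| := hu
    rw [abs_of_nonneg (by linarith : (0 : ℝ) ≤ Real.log u)] at h3
    exact (le_abs_self _).trans h3
  have e3 : ∀ᶠ u : ℝ in atTop, 1 ≤ Real.log (Real.log u) :=
    (Real.tendsto_log_atTop.comp Real.tendsto_log_atTop).eventually_ge_atTop 1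
  have e4 : ∀ᶠ u : ℝ in atTop, Real.log u ^ 2 ≤ κ / 8 * u ^ (3 / 4 : ℝ) := by
    have h := (isLittleO_log_rpow_rpow_atTop (2 : ℝ) (show (0 : ℝ) < 3 / 4 by norm_num)).def
      (show 0 < κ / 8 by positivity)
    filter_upwards [h, e1, eventually_ge_atTop (1 : ℝ)] with u hu h1 h2
    have h3 : |Real.log u ^ (2 : ℝ)| ≤ κ / 8 * |u ^ (3 / 4 : ℝ)| := hu
    rw [abs_of_nonneg (Real.rpow_nonneg (by linarith) _), abs_of_nonneg (Real.rpow_nonneg (by linarith) _),
      Real.rpow_two] at h3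
    exact h3
  filter_upwards [e1, e2, e3, e4, sum_primeFactors (1 / 16) (by norm_num), eventually_ge_atTop (1 : ℝ)]
    with u h1 h2 h3 h4 h5 h6 m N hm hmu
  have hlu : 0 < Real.log u := by linarith
  have hu0 : 0 < u := by linarith
  have hth0 : 0 ≤ th u := div_nonneg (by linarith) hlu.le
  have hth1 : th u ≤ 1 := by
    unfold th
    rw [div_le_one hlu]
    linarith
  have hc : 1 / 2 ≤ 1 - th1 u := by
    have h7 : th1 u ≤ 1 / 2 := by
      unfold th1
      rw [div_le_iff₀ hlu]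
      linarith
    linarith
  -- the sum over the divisors
  have s1 : SP (th u) m N ≤ ∑ t ∈ m.divisors, (2 + Real.log u) * (t : ℝ) ^ (-(1 - th1 u)) := by
    unfold SP
    refine Finset.sum_le_sum fun t ht => ?_
    have ht1 : 1 ≤ t := Nat.pos_of_mem_divisors ht
    exact (sum_P_weight ht1 N hth0 hth1).trans (H_term h1 ht1)
  have s2 : ∑ p ∈ m.primeFactors, (p : ℝ) ^ (-(1 - th1 u)) ≤ 1 / 16 * Real.log u := by
    have h7 := h5 m hm hmu
    have h8 : -(1 - th1 u) = th1 u - 1 := by ring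
    rw [h8]
    exact h7
  have s3 : ∑ t ∈ m.divisors, (t : ℝ) ^ (-(1 - th1 u)) ≤ u ^ (1 / 4 : ℝ) := by
    refine (sum_div hc hm).trans ?_
    rw [Real.rpow_def_of_pos hu0]
    refine Real.exp_le_exp.2 ?_
    linarith
  have s4 : SP (th u) m N ≤ (2 + Real.log u) * u ^ (1 / 4 : ℝ) := by
    refine s1.trans ?_
    rw [← Finset.mul_sum]
    exact mul_le_mul_of_nonneg_left s3 (by linarith)
  -- the comparison
  have hq : 0 < u ^ (1 / 4 : ℝ) := Real.rpow_pos_of_pos hu0 _
  have hmul : u ^ (3 / 4 : ℝ) * u ^ (1 / 4 : ℝ) = u := by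
    rw [← Real.rpow_add hu0]
    norm_num
  have s5 : (2 + Real.log u) * Real.log u ≤ 2 * Real.log u ^ 2 := by nlinarith
  have s6 : 4 * SP (th u) m N * Real.log u ≤ κ * u * Real.log (Real.log u) := by
    calc 4 * SP (th u) m N * Real.log u
        ≤ 4 * ((2 + Real.log u) * u ^ (1 / 4 : ℝ)) * Real.log u := by
          have := mul_le_mul_of_nonneg_right s4 hlu.le
          nlinarith
      _ = 4 * ((2 + Real.log u) * Real.log u) * u ^ (1 / 4 : ℝ) := by ring
      _ ≤ 4 * (2 * Real.log u ^ 2) * u ^ (1 / 4 : ℝ) := by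
          refine mul_le_mul_of_nonneg_right ?_ hq.le
          linarith
      _ ≤ 4 * (2 * (κ / 8 * u ^ (3 / 4 : ℝ))) * u ^ (1 / 4 : ℝ) := by
          refine mul_le_mul_of_nonneg_right ?_ hq.le
          linarith
      _ = κ * (u ^ (3 / 4 : ℝ) * u ^ (1 / 4 : ℝ)) := by ring
      _ = κ * u * 1 := by rw [hmul]; ring
      _ ≤ κ * u * Real.log (Real.log u) := mul_le_mul_of_nonneg_left h3 (by positivity)
  have s7 : κ * u * th u = κ * u * Real.log (Real.log u) / Real.log u := by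
    unfold th
    ring
  rw [s7, le_div_iff₀ hlu]
  exact s6

end H58F
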