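import Pool.Agent.Lib.H58F.B
import Pool.Agent.Lib.H58F.E

/-!
# I: pseudoprimes without a large prime factor
-/

set_option autoImplicit false

namespace H58F

private theorem psp_odd {n : ℕ} (h : n.FermatPsp 2) : ¬ 2 ∣ n := by
  intro h2
  have h1 : n ∣ 2 ^ (n - 1) - 1 := h.1
  have h3 : 2 ∣ 2 ^ (n - 1) - 1 := h2.trans h1
  have hn : 1 < n := h.2.2
  obtain ⟨k, hk⟩ : ∃ k, n - 1 = k + 1 := ⟨n - 2, by omega⟩
  rw [hk, pow_succ] at h3
  have h4 : 0 < 2 ^ k := by positivity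
  omega

/-- For `n ∈ T`, `exists_dvd` with `y = x^(1-δ)`, `z = x^δ` gives `d ∣ n`, `d ≤ x^(1-δ)`, `n / d < x^(2δ)`, so
`W d = W n / W (n/d) ≥ x^(γ-2δ)` (`W_mul`, `W_le`).  So `T` is covered by the sets of `card_psp_dvd` for the odd
`d ≤ x^(1-δ)` with `W d ≥ x^(γ-2δ)`; `card T ≤ ∑_d (1 + x/(d o(d)))`, `∑_d 1 ≤ x^(1-δ)`, and
`1/(d o(d)) ≤ x^(-(γ-2δ)θ) W(d)^θ/(d o(d))`; sum over `m = o d ≤ x`, `sum_V` and `H`:
`∑_(m ≤ x) (1/m) exp(κ u θ) ≤ (2 + log x) exp(κ u θ)`, `u = log x`. -/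
theorem small_primes (T : Finset ℕ) {x δ γ θ κ : ℝ} (hx : 1 < x) (hδ : 0 < δ) (hδ1 : δ < 1)
    (h0 : 0 ≤ θ) (h1 : θ ≤ 1 / 2)
    (hT : ∀ n ∈ T, (n : ℝ) < x ∧ n.FermatPsp 2 ∧ x ^ (1 - δ) < n ∧ x ^ γ ≤ W n ∧
      ∀ p : ℕ, p.Prime → p ∣ n → (p : ℝ) ≤ x ^ δ)
    (H : ∀ m : ℕ, 1 ≤ m → (m : ℝ) ≤ x → 4 * SP θ m ⌈x⌉₊ ≤ κ * Real.log x * θ) :
    (T.card : ℝ) ≤ x ^ (1 - δ) +
      x ^ (1 - (γ - 2 * δ) * θ) * (2 + Real.log x) * Real.exp (κ * Real.log x * θ) := by
  classical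
  have hx0 : 0 < x := by linarith
  have hlogx : 0 < Real.log x := Real.log_pos hx
  have hy1 : 1 ≤ x ^ (1 - δ) := Real.one_le_rpow hx.le (by linarith)
  have hyx : x ^ (1 - δ) < x := by
    calc x ^ (1 - δ) < x ^ (1 : ℝ) := Real.rpow_lt_rpow_of_exponent_lt hx (by linarith)
      _ = x := Real.rpow_one x
  set X := ⌈x⌉₊ with hX
  set D : Finset ℕ := (Finset.range X).filter
    (fun d => 0 < d ∧ 0 < o d ∧ (d : ℝ) ≤ x ^ (1 - δ) ∧ x ^ (γ - 2 * δ) ≤ W d) with hD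
  have hcover : T ⊆ D.biUnion (fun d => T.filter (fun n => d ∣ n)) := by
    intro n hn
    obtain ⟨hnx, hpsp, hyn, hWn, hpn⟩ := hT n hn
    have hn0 : n ≠ 0 := by
      rintro rfl
      simp only [Nat.cast_zero] at hyn
      linarith
    obtain ⟨d, hdn, hdy, hydz⟩ := exists_dvd hn0 hy1 hyn hpn
    have hd0 : d ≠ 0 := by
      rintro rfl
      exact hn0 (zero_dvd_iff.1 hdn)
    obtain ⟨e, rfl⟩ := hdn
    have he0 : e ≠ 0 := by
      rintro rfl
      exact hn0 (by simp)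
    have hdpos : (0 : ℝ) < d := by positivity
    have hdlt : (d : ℝ) < x := lt_of_le_of_lt hdy hyx
    have hodd : ¬ 2 ∣ d := fun h => psp_odd hpsp (h.trans (Dvd.intro _ rfl))
    -- the cofactor is small
    have he : (e : ℝ) < x ^ (2 * δ) := by
      have e1 : x ^ (1 - δ) * x ^ (2 * δ) = x * x ^ δ := by
        rw [← Real.rpow_add hx0]
        nth_rewrite 2 [← Real.rpow_one x]
        rw [← Real.rpow_add hx0]
        congr 1
        ring
      have hz : 0 < x ^ δ := Real.rpow_pos_of_pos hx0 _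
      have hzz : 0 < x ^ (2 * δ) := Real.rpow_pos_of_pos hx0 _
      have hde : (d : ℝ) * e < x := by exact_mod_cast hnx
      by_contra hcon
      push Not at hcon
      have a1 : (d : ℝ) * x ^ (2 * δ) ≤ d * e := mul_le_mul_of_nonneg_left hcon hdpos.le
      have a2 : (d : ℝ) * x ^ (2 * δ) < x := lt_of_le_of_lt a1 hde
      have a3 : x ^ (1 - δ) * x ^ (2 * δ) < d * x ^ δ * x ^ (2 * δ) :=
        mul_lt_mul_of_pos_right hydz hzz
      rw [e1] at a3
      have a4 : (d : ℝ) * x ^ δ * x ^ (2 * δ) < x * x ^ δ := by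
        calc (d : ℝ) * x ^ δ * x ^ (2 * δ) = d * x ^ (2 * δ) * x ^ δ := by ring
          _ < x * x ^ δ := mul_lt_mul_of_pos_right a2 hz
      linarith
    have hWd : x ^ (γ - 2 * δ) ≤ W d := by
      have h2 : W (d * e) = W d * W e := W_mul hd0 he0
      have h3 : W e ≤ x ^ (2 * δ) := (W_le he0).trans he.le
      have h4 : 0 < x ^ (2 * δ) := Real.rpow_pos_of_pos hx0 _
      have h5 : x ^ γ ≤ W d * x ^ (2 * δ) := by
        calc x ^ γ ≤ W d * W e := by rw [← h2]; exact hWn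
          _ ≤ W d * x ^ (2 * δ) :=
            mul_le_mul_of_nonneg_left h3 (le_trans zero_le_one (W_one_le d))
      rw [Real.rpow_sub hx0, div_le_iff₀ h4]
      exact h5
    rw [Finset.mem_biUnion]
    refine ⟨d, ?_, ?_⟩
    · rw [hD, Finset.mem_filter, Finset.mem_range]
      exact ⟨Nat.lt_ceil.2 hdlt, Nat.pos_of_ne_zero hd0, o_pos hodd, hdy, hWd⟩
    · rw [Finset.mem_filter]
      exact ⟨hn, Dvd.intro _ rfl⟩
  -- counting
  have hcard : (T.card : ℝ) ≤ ∑ d ∈ D, (x / (d * o d) + 1) := by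
    have a1 : T.card ≤ ∑ d ∈ D, (T.filter (fun n => d ∣ n)).card :=
      (Finset.card_le_card hcover).trans Finset.card_biUnion_le
    calc (T.card : ℝ) ≤ ((∑ d ∈ D, (T.filter (fun n => d ∣ n)).card : ℕ) : ℝ) := by
          exact_mod_cast a1
      _ = ∑ d ∈ D, ((T.filter (fun n => d ∣ n)).card : ℝ) := by push_cast; rfl
      _ ≤ ∑ d ∈ D, (x / (d * o d) + 1) := by
          apply Finset.sum_le_sum
          intro d hd
          rw [hD, Finset.mem_filter] at hd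
          apply card_psp_dvd _ hd.2.1 hx0.le
          intro n hn
          rw [Finset.mem_filter] at hn
          exact ⟨(hT n hn.1).1, (hT n hn.1).2.1, hn.2⟩
  have hDcard : (D.card : ℝ) ≤ x ^ (1 - δ) := by
    have a1 : D ⊆ Finset.Icc 1 ⌊x ^ (1 - δ)⌋₊ := by
      intro d hd
      rw [hD, Finset.mem_filter] at hd
      rw [Finset.mem_Icc]
      exact ⟨hd.2.1, Nat.le_floor hd.2.2.2.1⟩
    have a2 := Finset.card_le_card a1
    rw [Nat.card_Icc, Nat.add_sub_cancel] at a2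
    calc (D.card : ℝ) ≤ (⌊x ^ (1 - δ)⌋₊ : ℝ) := by exact_mod_cast a2
      _ ≤ x ^ (1 - δ) := Nat.floor_le (by positivity)
  -- the weighted sum
  have hmain : ∑ d ∈ D, x / (d * o d) ≤
      x ^ (1 - (γ - 2 * δ) * θ) * ∑ d ∈ D, W d ^ θ / (d : ℝ) / (o d : ℝ) := by
    rw [Finset.mul_sum]
    apply Finset.sum_le_sum
    intro d hd
    rw [hD, Finset.mem_filter] at hd
    obtain ⟨_, hd0, hod, _, hWd⟩ := hd
    have hdpos : (0 : ℝ) < d := by exact_mod_cast hd0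
    have hopos : (0 : ℝ) < o d := by exact_mod_cast hod
    have b1 : x ^ ((γ - 2 * δ) * θ) ≤ W d ^ θ := by
      rw [Real.rpow_mul hx0.le]
      exact Real.rpow_le_rpow (Real.rpow_nonneg hx0.le _) hWd h0
    have b2 : x ≤ x ^ (1 - (γ - 2 * δ) * θ) * W d ^ θ := by
      have b3 : x ^ (1 - (γ - 2 * δ) * θ) * x ^ ((γ - 2 * δ) * θ) = x := by
        rw [← Real.rpow_add hx0]
        have : 1 - (γ - 2 * δ) * θ + (γ - 2 * δ) * θ = 1 := by ring
        rw [this, Real.rpow_one]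
      calc x = x ^ (1 - (γ - 2 * δ) * θ) * x ^ ((γ - 2 * δ) * θ) := b3.symm
        _ ≤ _ := mul_le_mul_of_nonneg_left b1 (Real.rpow_nonneg hx0.le _)
    calc x / (d * o d) ≤ (x ^ (1 - (γ - 2 * δ) * θ) * W d ^ θ) / (d * o d) :=
          div_le_div_of_nonneg_right b2 (by positivity)
      _ = x ^ (1 - (γ - 2 * δ) * θ) * (W d ^ θ / (d : ℝ) / (o d : ℝ)) := by
          rw [div_div]; ring
  -- sum over the orders
  have hWnn : ∀ d : ℕ, 0 ≤ W d ^ θ / (d : ℝ) := fun d =>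
    div_nonneg (Real.rpow_nonneg (le_trans zero_le_one (W_one_le d)) _) (Nat.cast_nonneg d)
  have hmaps : ∀ d ∈ D, o d ∈ Finset.Icc 1 (X - 1) := by
    intro d hd
    rw [hD, Finset.mem_filter, Finset.mem_range] at hd
    have := o_le (d := d) (by omega)
    rw [Finset.mem_Icc]
    omega
  have hfib : ∑ d ∈ D, W d ^ θ / (d : ℝ) / (o d : ℝ) ≤
      ∑ m ∈ Finset.Icc 1 (X - 1), 1 / (m : ℝ) * Real.exp (κ * Real.log x * θ) := by
    rw [← Finset.sum_fiberwise_of_maps_to hmaps]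
    apply Finset.sum_le_sum
    intro m hm
    rw [Finset.mem_Icc] at hm
    have hmx : (m : ℝ) < x := Nat.lt_ceil.1 (by omega)
    have c1 : ∑ d ∈ D.filter (fun d => o d = m), W d ^ θ / (d : ℝ) / (o d : ℝ) =
        1 / (m : ℝ) * ∑ d ∈ D.filter (fun d => o d = m), W d ^ θ / (d : ℝ) := by
      rw [Finset.mul_sum]
      apply Finset.sum_congr rfl
      intro d hd
      rw [Finset.mem_filter] at hd
      rw [hd.2]
      ring
    rw [c1]
    apply mul_le_mul_of_nonneg_left _ (by positivity)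
    calc ∑ d ∈ D.filter (fun d => o d = m), W d ^ θ / (d : ℝ)
        ≤ ∑ d ∈ (Finset.range X).filter (fun d => o d = m), W d ^ θ / (d : ℝ) := by
          apply Finset.sum_le_sum_of_subset_of_nonneg
          · intro d hd
            rw [Finset.mem_filter, hD, Finset.mem_filter] at hd
            rw [Finset.mem_filter]
            exact ⟨hd.1.1, hd.2⟩
          · intro d _ _
            exact hWnn d
      _ ≤ Real.exp (4 * SP θ m X) := sum_V h0 h1 hm.1 X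
      _ ≤ Real.exp (κ * Real.log x * θ) := Real.exp_le_exp.2 (H m hm.1 hmx.le)
  have hharm : ∑ m ∈ Finset.Icc 1 (X - 1), 1 / (m : ℝ) ≤ 1 + Real.log x := by
    have d1 : ∑ m ∈ Finset.Icc 1 (X - 1), 1 / (m : ℝ) = ((harmonic (X - 1) : ℚ) : ℝ) := by
      rw [harmonic_eq_sum_Icc]
      push_cast
      apply Finset.sum_congr rfl
      intro m _
      rw [one_div]
    rw [d1]
    refine (harmonic_le_one_add_log (X - 1)).trans ?_
    have hX2 : 2 ≤ X := by
      have : 1 < X := Nat.lt_ceil.2 (by exact_mod_cast hx)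
      omega
    have d2 : ((X - 1 : ℕ) : ℝ) ≤ x := (Nat.lt_ceil.1 (by omega : X - 1 < ⌈x⌉₊)).le
    have d3 : (0 : ℝ) < ((X - 1 : ℕ) : ℝ) := by
      have : 0 < X - 1 := by omega
      exact_mod_cast this
    have := Real.log_le_log d3 d2
    linarith
  have hpos : 0 ≤ x ^ (1 - (γ - 2 * δ) * θ) := Real.rpow_nonneg hx0.le _
  have hexp : 0 < Real.exp (κ * Real.log x * θ) := Real.exp_pos _
  have hsum : ∑ d ∈ D, x / (d * o d) ≤
      x ^ (1 - (γ - 2 * δ) * θ) * (2 + Real.log x) * Real.exp (κ * Real.log x * θ) := by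
    calc ∑ d ∈ D, x / (d * o d)
        ≤ x ^ (1 - (γ - 2 * δ) * θ) * ∑ d ∈ D, W d ^ θ / (d : ℝ) / (o d : ℝ) := hmain
      _ ≤ x ^ (1 - (γ - 2 * δ) * θ) *
          ∑ m ∈ Finset.Icc 1 (X - 1), 1 / (m : ℝ) * Real.exp (κ * Real.log x * θ) :=
          mul_le_mul_of_nonneg_left hfib hpos
      _ = x ^ (1 - (γ - 2 * δ) * θ) *
          ((∑ m ∈ Finset.Icc 1 (X - 1), 1 / (m : ℝ)) * Real.exp (κ * Real.log x * θ)) := by
          rw [Finset.sum_mul]
      _ ≤ x ^ (1 - (γ - 2 * δ) * θ) *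
          ((2 + Real.log x) * Real.exp (κ * Real.log x * θ)) := by
          apply mul_le_mul_of_nonneg_left _ hpos
          apply mul_le_mul_of_nonneg_right _ hexp.le
          linarith
      _ = _ := by ring
  rw [Finset.sum_add_distrib, Finset.sum_const, nsmul_eq_mul, mul_one] at hcard
  linarith

end H58F
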