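import Pool.Agent.Lib.H58F.Defs

/-!
# J: the asymptotic comparison
-/

set_option autoImplicit false

open Filter

namespace H58F

private theorem j_tendsto_th : Tendsto th atTop (nhds 0) := by
  have h1 : Tendsto (fun t : ℝ => Real.log t / t) atTop (nhds 0) :=
    Real.isLittleO_log_id_atTop.tendsto_div_nhds_zero
  exact h1.comp Real.tendsto_log_atTop

private theorem j_log_le : ∀ᶠ u : ℝ in atTop, Real.log u ≤ u ^ (1 / 4 : ℝ) := by
  have h := (isLittleO_log_rpow_atTop (by norm_num : (0 : ℝ) < 1 / 4)).bound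
    (by norm_num : (0 : ℝ) < 1)
  filter_upwards [h, eventually_ge_atTop (1 : ℝ)] with u hu h1
  rw [one_mul, Real.norm_of_nonneg (Real.log_nonneg h1), Real.norm_of_nonneg (by positivity)] at hu
  exact hu

private theorem j_F1 (c : ℝ) (hc : 0 < c) :
    ∀ᶠ u : ℝ in atTop, Real.log (4 * (2 + u)) ≤ c * (th u * u) := by
  have h2 : ∀ᶠ u : ℝ in atTop, 2 / c ≤ u ^ (1 / 2 : ℝ) :=
    (tendsto_rpow_atTop (by norm_num : (0 : ℝ) < 1 / 2)).eventually_ge_atTop _
  have h3 : ∀ᶠ u : ℝ in atTop, 1 ≤ Real.log (Real.log u) :=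
    (Real.tendsto_log_atTop.comp Real.tendsto_log_atTop).eventually_ge_atTop 1
  have h4 : ∀ᶠ u : ℝ in atTop, 1 ≤ Real.log u := Real.tendsto_log_atTop.eventually_ge_atTop 1
  filter_upwards [j_log_le, h2, h3, h4, eventually_ge_atTop (8 : ℝ)] with u a1 a2 a3 a4 a5
  have hu0 : 0 < u := by linarith
  have b1 : Real.log (4 * (2 + u)) ≤ 2 * Real.log u := by
    have : 2 * Real.log u = Real.log (u ^ 2) := by
      rw [Real.log_pow]
      norm_num
    rw [this]
    apply Real.log_le_log (by positivity)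
    nlinarith
  have b2 : u / u ^ (1 / 4 : ℝ) ≤ th u * u := by
    unfold th
    rw [div_mul_eq_mul_div]
    have c1 : u / u ^ (1 / 4 : ℝ) ≤ u / Real.log u :=
      div_le_div_of_nonneg_left hu0.le (by linarith) a1
    refine c1.trans ?_
    apply div_le_div_of_nonneg_right _ (by linarith)
    nlinarith
  have b3 : u / u ^ (1 / 4 : ℝ) = u ^ (1 / 4 : ℝ) * u ^ (1 / 2 : ℝ) := by
    rw [← Real.rpow_add hu0]
    have : u / u ^ (1 / 4 : ℝ) = u ^ (1 : ℝ) / u ^ (1 / 4 : ℝ) := by rw [Real.rpow_one]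
    rw [this, ← Real.rpow_sub hu0]
    norm_num
  have hp : 0 < u ^ (1 / 4 : ℝ) := by positivity
  calc Real.log (4 * (2 + u)) ≤ 2 * Real.log u := b1
    _ ≤ 2 * u ^ (1 / 4 : ℝ) := by linarith
    _ = c * (u ^ (1 / 4 : ℝ) * (2 / c)) := by field_simp
    _ ≤ c * (u ^ (1 / 4 : ℝ) * u ^ (1 / 2 : ℝ)) := by gcongr
    _ = c * (u / u ^ (1 / 4 : ℝ)) := by rw [b3]
    _ ≤ c * (th u * u) := by gcongr

private theorem j_F2 (c : ℝ) (hc : 0 < c) :
    ∀ᶠ u : ℝ in atTop, Real.log (4 * (8 + 3 * u)) ≤ c * u := by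
  have h := (Real.isLittleO_log_id_atTop).bound (by positivity : 0 < c / 2)
  filter_upwards [h, eventually_ge_atTop (20 : ℝ)] with u hu h1
  have hu0 : 0 < u := by linarith
  simp only [id, Real.norm_of_nonneg hu0.le,
    Real.norm_of_nonneg (Real.log_nonneg (by linarith : (1 : ℝ) ≤ u))] at hu
  have b1 : Real.log (4 * (8 + 3 * u)) ≤ 2 * Real.log u := by
    have : 2 * Real.log u = Real.log (u ^ 2) := by
      rw [Real.log_pow]
      norm_num
    rw [this]
    apply Real.log_le_log (by positivity)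
    nlinarith
  linarith

/-- The asymptotic comparison.  With `u = log x`, `θ = th u = logloglog x / loglog x` (with `u`: loglog u/log u),
`δ = min(ε,1)/8`: `x^(1-δ)`, `x^(1-δ)`, `3 x (2 + log x) / x^(δ/2)` and `x^(1-(γ-2δ)θ) (2 + log x) exp(δ u θ)` are
each at most `x^(1-(γ-ε)θ)/4` for `γ ≤ 1` and large `x`, because `θ → 0` and `u θ / log u → ∞`. -/
theorem compare (ε δ : ℝ) (hε : 0 < ε) (hε1 : ε ≤ 1) (hδ : δ = ε / 8) :
    ∀ᶠ x : ℝ in atTop, ∀ γ : ℝ, γ ≤ 1 →
      2 * x ^ (1 - δ) + 3 * x * (2 + Real.log x) / Real.sqrt (x ^ δ) +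
        x ^ (1 - (γ - 2 * δ) * th (Real.log x)) * (2 + Real.log x) *
          Real.exp (δ * Real.log x * th (Real.log x)) ≤
      x ^ (1 - (γ - ε) * th (Real.log x)) := by
  have hδ0 : 0 < δ := by rw [hδ]; positivity
  have e1 := Real.tendsto_log_atTop.eventually (j_F1 (5 * ε / 8) (by positivity))
  have e2 := Real.tendsto_log_atTop.eventually (j_F2 (δ / 4) (by positivity))
  have e3 : ∀ᶠ u : ℝ in atTop, th u ≤ δ / 4 :=
    j_tendsto_th.eventually_le_const (by positivity)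
  have e3' := Real.tendsto_log_atTop.eventually e3
  have e4 : ∀ᶠ u : ℝ in atTop, 1 ≤ Real.log u := Real.tendsto_log_atTop.eventually_ge_atTop 1
  have e4' := Real.tendsto_log_atTop.eventually e4
  filter_upwards [e1, e2, e3', e4', eventually_gt_atTop (Real.exp 1)] with x a1 a2 a3 a4 a5 γ hγ
  have hx0 : 0 < x := lt_trans (Real.exp_pos _) a5
  set u := Real.log x with hu
  have hu1 : 1 < u := by
    rw [hu, Real.lt_log_iff_exp_lt hx0]
    exact a5
  have hu0 : 0 < u := by linarith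
  set θ := th u with hθ
  have hθ0 : 0 ≤ θ := by
    rw [hθ]
    unfold th
    exact div_nonneg (Real.log_nonneg a4) (by linarith)
  have hxe : x = Real.exp u := by rw [hu, Real.exp_log hx0]
  have hpow : ∀ s : ℝ, x ^ (1 - s) = x * Real.exp (-(s * u)) := by
    intro s
    rw [Real.rpow_sub hx0, Real.rpow_one, Real.rpow_def_of_pos hx0, Real.exp_neg, ← hu, mul_comm u s]
    rfl
  have hsq : Real.sqrt (x ^ δ) = Real.exp (δ * u / 2) := by
    rw [Real.rpow_def_of_pos hx0, ← hu, Real.sqrt_eq_rpow, ← Real.exp_mul]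
    congr 1
    ring
  -- the target
  have R : Real.exp (-(θ * u)) ≤ Real.exp (-((γ - ε) * θ * u)) := by
    apply Real.exp_le_exp.2
    have : (γ - ε) * θ * u ≤ 1 * θ * u := by
      apply mul_le_mul_of_nonneg_right _ hu0.le
      apply mul_le_mul_of_nonneg_right _ hθ0
      linarith
    linarith
  -- first two terms
  have A : 4 * (8 + 3 * u) * Real.exp (-(δ * u / 2)) ≤ Real.exp (-(θ * u)) := by
    have h1 : 4 * (8 + 3 * u) = Real.exp (Real.log (4 * (8 + 3 * u))) := by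
      rw [Real.exp_log (by positivity)]
    rw [h1, ← Real.exp_add]
    apply Real.exp_le_exp.2
    have h2 : θ * u ≤ δ / 4 * u := mul_le_mul_of_nonneg_right a3 hu0.le
    linarith
  have A' : 2 * Real.exp (-(δ * u)) + 3 * (2 + u) * Real.exp (-(δ * u / 2)) ≤
      (1 / 2) * Real.exp (-((γ - ε) * θ * u)) := by
    have h1 : Real.exp (-(δ * u)) ≤ Real.exp (-(δ * u / 2)) := by
      apply Real.exp_le_exp.2
      have : 0 < δ * u := by positivity
      linarith
    have h2 := Real.exp_pos (-(δ * u / 2))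
    nlinarith
  -- the third term
  have B : 4 * (2 + u) * Real.exp (-((γ - 2 * δ) * θ * u) + δ * u * θ) ≤
      Real.exp (-((γ - ε) * θ * u)) := by
    have h1 : 4 * (2 + u) = Real.exp (Real.log (4 * (2 + u))) := by
      rw [Real.exp_log (by positivity)]
    rw [h1, ← Real.exp_add]
    apply Real.exp_le_exp.2
    rw [hδ]
    have : (5 * ε / 8) * (θ * u) = -((γ - ε) * θ * u) + (γ - 2 * (ε / 8)) * θ * u - ε / 8 * u * θ := by
      ring
    linarith
  rw [hpow δ, hsq, hpow ((γ - 2 * δ) * θ), hpow ((γ - ε) * θ)]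
  have h3 : 3 * x * (2 + u) / Real.exp (δ * u / 2) = x * (3 * (2 + u) * Real.exp (-(δ * u / 2))) := by
    rw [Real.exp_neg]
    field_simp
  have h4 : x * Real.exp (-((γ - 2 * δ) * θ * u)) * (2 + u) * Real.exp (δ * u * θ) =
      x * ((2 + u) * Real.exp (-((γ - 2 * δ) * θ * u) + δ * u * θ)) := by
    rw [Real.exp_add]
    ring
  rw [h3, h4]
  have h5 : 2 * (x * Real.exp (-(δ * u))) + x * (3 * (2 + u) * Real.exp (-(δ * u / 2))) +
      x * ((2 + u) * Real.exp (-((γ - 2 * δ) * θ * u) + δ * u * θ)) =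
      x * (2 * Real.exp (-(δ * u)) + 3 * (2 + u) * Real.exp (-(δ * u / 2)) +
        (2 + u) * Real.exp (-((γ - 2 * δ) * θ * u) + δ * u * θ)) := by ring
  rw [h5]
  apply mul_le_mul_of_nonneg_left _ hx0.le
  have hE := Real.exp_pos (-((γ - ε) * θ * u))
  linarith

end H58F
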