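import Pool.Agent.Lib.H58F.D
import Pool.Agent.Lib.H58F.H
import Pool.Agent.Lib.H58F.I
import Pool.Agent.Lib.H58F.J

/-!
# M: the theorem
-/

set_option autoImplicit false

open Filter

namespace H58F

private theorem tendsto_th : Tendsto th atTop (nhds 0) := by
  have h1 : Tendsto (fun t : ℝ => Real.log t / t) atTop (nhds 0) := by
    have h := Real.isLittleO_log_id_atTop.tendsto_div_nhds_zero
    exact h
  exact h1.comp Real.tendsto_log_atTop

private theorem th_bounds : ∀ᶠ u : ℝ in atTop, 0 ≤ th u ∧ th u ≤ 1 / 2 := by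
  have h1 : ∀ᶠ u : ℝ in atTop, th u ≤ 1 / 2 :=
    tendsto_th.eventually_le_const (by norm_num)
  have h2 : ∀ᶠ u : ℝ in atTop, 1 ≤ Real.log u := Real.tendsto_log_atTop.eventually_ge_atTop 1
  filter_upwards [h1, h2] with u h3 h4
  refine ⟨?_, h3⟩
  unfold th
  exact div_nonneg (Real.log_nonneg h4) (by linarith)

/-- For `γ > 1` the set is empty (`W n ≤ n < x`).  For `γ ≤ 1` split the set into the `n ≤ x^(1-δ)` (at most
`x^(1-δ)` of them, all `≥ 1`), the `n` with a prime factor `≥ x^δ` (`big_prime`) and the rest (`small_primes` with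
`κ = δ`, `H` from `SP_le`), and use `compare`.  `x L(x)^(ε-γ) = x^(1-(γ-ε)θ)`. -/
theorem main (ε : ℝ) (hε : 0 < ε) : ∃ x₀ : ℝ, ∀ x : ℝ, x₀ ≤ x → ∀ γ : ℝ,
    ({n : ℕ | (n : ℝ) < x ∧ n.FermatPsp 2 ∧ x ^ γ ≤ W n}.ncard : ℝ) ≤
      x * Real.exp (Real.log x * Real.log (Real.log (Real.log x)) / Real.log (Real.log x)) ^
        (ε - γ) := by
  classical
  set ε' : ℝ := min ε 1 with hε'
  have he0 : 0 < ε' := lt_min hε one_pos
  have he1 : ε' ≤ 1 := min_le_right _ _
  have hee : ε' ≤ ε := min_le_left _ _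
  set δ : ℝ := ε' / 8 with hδ
  have hδ0 : 0 < δ := by positivity
  have hδ1 : δ < 1 := by rw [hδ]; linarith
  have E1 := compare ε' δ he0 he1 hδ
  have E2 := Real.tendsto_log_atTop.eventually (SP_le δ hδ0)
  have E3 := Real.tendsto_log_atTop.eventually th_bounds
  have E4 : ∀ᶠ x : ℝ in atTop, 1 < x := eventually_gt_atTop 1
  obtain ⟨x₀, hx₀⟩ := eventually_atTop.1 (E1.and (E2.and (E3.and E4)))
  refine ⟨x₀, fun x hx γ => ?_⟩
  obtain ⟨C1, C2, ⟨C3, C3'⟩, C4⟩ := hx₀ x hx
  have hx0 : 0 < x := by linarith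
  have hlog : 0 < Real.log x := Real.log_pos C4
  set θ : ℝ := th (Real.log x) with hθ
  have hL : Real.exp (Real.log x * Real.log (Real.log (Real.log x)) / Real.log (Real.log x)) =
      Real.exp (Real.log x * θ) := by
    rw [hθ]
    unfold th
    rw [mul_div_assoc]
  rw [hL]
  set T : Finset ℕ := (Finset.range ⌈x⌉₊).filter
    (fun n => (n : ℝ) < x ∧ n.FermatPsp 2 ∧ x ^ γ ≤ W n) with hT
  have hset : {n : ℕ | (n : ℝ) < x ∧ n.FermatPsp 2 ∧ x ^ γ ≤ W n} = (T : Set ℕ) := by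
    ext n
    simp only [Set.mem_setOf_eq, hT, Finset.coe_filter, Finset.mem_range]
    constructor
    · intro h
      exact ⟨Nat.lt_ceil.2 h.1, h⟩
    · intro h
      exact h.2
  rw [hset, Set.ncard_coe_finset]
  have hmem : ∀ n ∈ T, (n : ℝ) < x ∧ n.FermatPsp 2 ∧ x ^ γ ≤ W n := fun n hn =>
    (Finset.mem_filter.1 hn).2
  rcases lt_or_ge 1 γ with hγ | hγ
  · have hT0 : T = ∅ := by
      rw [Finset.eq_empty_iff_forall_notMem]
      intro n hn
      obtain ⟨h1, h2, h3⟩ := hmem n hn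
      have h4 : n ≠ 0 := by
        have := h2.2.2
        omega
      have h5 : x ^ (1 : ℝ) ≤ x ^ γ := Real.rpow_le_rpow_of_exponent_le C4.le hγ.le
      rw [Real.rpow_one] at h5
      have h6 := W_le h4
      linarith
    rw [hT0]
    simp only [Finset.card_empty, Nat.cast_zero]
    positivity
  · set T0 : Finset ℕ := T.filter (fun n : ℕ => (n : ℝ) ≤ x ^ (1 - δ)) with hT0
    set T1 : Finset ℕ := T.filter (fun n : ℕ => ∃ p : ℕ, p.Prime ∧ p ∣ n ∧ x ^ δ ≤ (p : ℝ)) with hT1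
    set T2 : Finset ℕ := T.filter (fun n : ℕ => x ^ (1 - δ) < (n : ℝ) ∧
      ∀ p : ℕ, p.Prime → p ∣ n → (p : ℝ) ≤ x ^ δ) with hT2
    have hcov : T ⊆ T0 ∪ T1 ∪ T2 := by
      intro n hn
      rw [Finset.mem_union, Finset.mem_union]
      by_cases a : (n : ℝ) ≤ x ^ (1 - δ)
      · exact Or.inl (Or.inl (Finset.mem_filter.2 ⟨hn, a⟩))
      · by_cases b : ∃ p : ℕ, p.Prime ∧ p ∣ n ∧ x ^ δ ≤ (p : ℝ)
        · exact Or.inl (Or.inr (Finset.mem_filter.2 ⟨hn, b⟩))
        · refine Or.inr (Finset.mem_filter.2 ⟨hn, not_le.1 a, ?_⟩)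
          intro p hp hpn
          by_contra hcon
          exact b ⟨p, hp, hpn, (not_le.1 hcon).le⟩
    have hcard : (T.card : ℝ) ≤ T0.card + T1.card + T2.card := by
      have h1 := (Finset.card_le_card hcov).trans (Finset.card_union_le _ _)
      have h2 := Finset.card_union_le T0 T1
      have h3 : T.card ≤ T0.card + T1.card + T2.card := by omega
      exact_mod_cast h3
    have hxδ : 1 ≤ x ^ δ := Real.one_le_rpow C4.le hδ0.le
    have b0 : (T0.card : ℝ) ≤ x ^ (1 - δ) := by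
      have h1 : T0 ⊆ Finset.Icc 1 ⌊x ^ (1 - δ)⌋₊ := by
        intro n hn
        obtain ⟨h2, h3⟩ := Finset.mem_filter.1 hn
        rw [Finset.mem_Icc]
        refine ⟨?_, Nat.le_floor h3⟩
        have := (hmem n h2).2.1.2.2
        omega
      have h2 := Finset.card_le_card h1
      rw [Nat.card_Icc, Nat.add_sub_cancel] at h2
      exact (Nat.cast_le.2 h2).trans (Nat.floor_le (by positivity))
    have b1 : (T1.card : ℝ) ≤ 3 * x * (2 + Real.log x) / Real.sqrt (x ^ δ) := by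
      apply big_prime T1 C4.le hxδ
      intro n hn
      obtain ⟨h2, h3⟩ := Finset.mem_filter.1 hn
      exact ⟨(hmem n h2).1, (hmem n h2).2.1, h3⟩
    have b2 : (T2.card : ℝ) ≤ x ^ (1 - δ) +
        x ^ (1 - (γ - 2 * δ) * θ) * (2 + Real.log x) * Real.exp (δ * Real.log x * θ) := by
      apply small_primes T2 C4 hδ0 hδ1 C3 C3'
      · intro n hn
        obtain ⟨h2, h3, h4⟩ := Finset.mem_filter.1 hn
        exact ⟨(hmem n h2).1, (hmem n h2).2.1, h3, (hmem n h2).2.2, h4⟩
      · intro m hm hmx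
        apply C2 m ⌈x⌉₊ hm
        apply Real.log_le_log _ hmx
        exact_mod_cast hm
    have hfin := C1 γ hγ
    have hle : (T.card : ℝ) ≤ x ^ (1 - (γ - ε') * θ) := by
      refine le_trans hcard (le_trans ?_ hfin)
      linarith
    refine hle.trans ?_
    have h1 : x ^ (1 - (γ - ε') * θ) = x * Real.exp (Real.log x * θ) ^ (ε' - γ) := by
      rw [← Real.exp_mul, Real.rpow_def_of_pos hx0]
      have h2 : x * Real.exp (Real.log x * θ * (ε' - γ)) =
          Real.exp (Real.log x) * Real.exp (Real.log x * θ * (ε' - γ)) := by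
        rw [Real.exp_log hx0]
      rw [h2, ← Real.exp_add]
      congr 1
      ring
    rw [h1]
    apply mul_le_mul_of_nonneg_left _ hx0.le
    apply Real.rpow_le_rpow_of_exponent_le
    · exact Real.one_le_exp (mul_nonneg hlog.le C3)
    · linarith

end H58F
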